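import Pool.Agent.helper90.FN.Goals
import Pool.Agent.helper57.HPT.A5

/-!
# Bridge (functional form, part C): `PhiD` is the profile function of the skeleton `D`

For a tree `f ∈ fors G {o}` and a set `D` closed under `f`: `Γ = D.toList`, `Rp x = (pth {o} f x).tail`.
-/

set_option autoImplicit false

open scoped BigOperators Topology
open Filter MeasureTheory Finset

namespace Pool.Agent.UQ.Sk

open Pool.Agent.helper72.UT (IsFor dep pth rt fors Reg lz pth_length pth_head mem_fors)
open Pool.Agent.helper20.HP (ind HW W Par run lel lst lev W_congr run_avoid_length ind_true ind_false)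
open Pool.Agent.helper57.HPT (Ok kmT Phi)
open Pool.Agent.helper90.FN (Cl PhiD cnt BR_stmt)

variable {V : Type} [Fintype V] [DecidableEq V]

/-- the path below `x` in the tree `f` -/
noncomputable def Rt (o : V) (f : V → V) (x : V) : List V := (pth {o} f x).tail

omit [Fintype V] in
theorem Bridge_cons (o : V) (f : V → V) (x : V) : x :: Rt o f x = pth {o} f x := by
  unfold Rt
  have h := pth_head (B := {o}) (f := f) x
  cases hp : pth {o} f x with
  | nil => rw [hp] at h; simp at h
  | cons a t =>
    rw [hp] at h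
    simp at h
    rw [h]
    rfl

omit [Fintype V] in
theorem Bridge_len (o : V) (f : V → V) (x : V) : (Rt o f x).length = dep {o} f x := by
  have h := congrArg List.length (Bridge_cons o f x)
  rw [pth_length, List.length_cons] at h
  omega

omit [Fintype V] [DecidableEq V] in
theorem Bridge_iter {D : Finset V} {f : V → V} (hD : ∀ x ∈ D, f x ∈ D) (k : ℕ) :
    ∀ x ∈ D, ∀ y ∈ List.iterate f x k, y ∈ D := by
  induction k with
  | zero => intro x _ y hy; simp [List.iterate] at hy
  | succ k ih =>
    intro x hx y hy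
    rw [List.iterate] at hy
    rcases List.mem_cons.1 hy with rfl | hy
    · exact hx
    · exact ih (f x) (hD x hx) y hy

theorem Bridge_ok {G : SimpleGraph V} {o : V} {f : V → V} {D : Finset V} (hf : f ∈ fors G {o})
    (hD : Cl {o} D f) {J : ℕ} (hJ : 1 ≤ J)
    (hw : ∀ q, (D.filter (fun x => dep {o} f x = q)).card ≤ J) :
    Ok D.toList (Rt o f) J := by
  have hfor : IsFor G {o} f := mem_fors.1 hf
  refine ⟨D.nodup_toList, ?_, ?_, hJ⟩
  · intro x hx
    rw [Finset.mem_toList] at hx
    rw [Bridge_cons]
    refine ⟨hfor.nodup_pth x, fun y hy => ?_⟩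
    rw [Finset.mem_toList]
    have h2 : y ∈ pth {o} f x := by rw [← Bridge_cons]; exact List.mem_cons_of_mem _ hy
    exact Bridge_iter hD.map _ x hx y h2
  · intro q
    refine le_trans (le_of_eq ?_) (hw q)
    refine Finset.card_bij (fun i _ => D.toList.get i) ?_ ?_ ?_
    · intro i hi
      rw [Finset.mem_filter] at hi ⊢
      refine ⟨Finset.mem_toList.1 (List.get_mem _ _), ?_⟩
      rw [← Bridge_len]; exact hi.2
    · intro i _ j _ hij
      exact (D.nodup_toList.injective_get) hij
    · intro x hx
      rw [Finset.mem_filter] at hx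
      obtain ⟨i, hi⟩ := List.get_of_mem (Finset.mem_toList.2 hx.1)
      refine ⟨i, ?_, hi⟩
      rw [Finset.mem_filter]
      refine ⟨Finset.mem_univ _, ?_⟩
      rw [Bridge_len, hi]; exact hx.2

theorem Bridge_kmT (K : HW V) {o : V} {f : V → V} (D : Finset V)
    (hD : ∀ x ∈ D, ∀ y ∈ Rt o f x, y ∈ D) (s t : ℕ) :
    kmT K D.toList (Rt o f) t (lev s) =
      ∑ y ∈ D, if dep {o} f y ≤ s then cnt K D y (s - dep {o} f y) t else 0 := by
  unfold kmT
  have h1 : ∑ y ∈ D, (if dep {o} f y ≤ s then cnt K D y (s - dep {o} f y) t else 0) =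
      ∑ i : Fin D.toList.length, (if dep {o} f (D.toList.get i) ≤ s then
        cnt K D (D.toList.get i) (s - dep {o} f (D.toList.get i)) t else 0) := by
    rw [← Finset.sum_map_toList]
    conv_lhs => rw [← List.ofFn_get D.toList, List.map_ofFn, List.sum_ofFn]
    rfl
  rw [h1]
  refine Finset.sum_congr rfl fun i _ => ?_
  set y := D.toList.get i with hy
  have hyD : y ∈ D := Finset.mem_toList.1 (List.get_mem _ _)
  have key : ∀ l : List V, (∀ z ∈ l, z ∉ D) →
      (run (y :: Rt o f y) l).length = lel y l + dep {o} f y + 1 := by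
    intro l hl
    rw [run_avoid_length y (Rt o f y) l (fun z hz hz' => hl z hz (hD y hyD z hz')), Bridge_len]
  by_cases hs : dep {o} f y ≤ s
  · rw [if_pos hs]
    unfold cnt
    refine W_congr K t y fun l _ => ?_
    by_cases hl : ∀ z ∈ l, z ∉ D
    · have hl' : ∀ z ∈ l, z ∉ D.toList := fun z hz => by
        rw [Finset.mem_toList]; exact hl z hz
      rw [ind_true hl, ind_true hl', one_mul, one_mul]
      unfold lev
      rw [key l hl]
      by_cases hq : lel y l = s - dep {o} f y
      · rw [ind_true hq, ind_true (by omega)]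
      · rw [ind_false hq, ind_false (by omega)]
    · have hl' : ¬ ∀ z ∈ l, z ∉ D.toList := fun h => hl fun z hz hz' =>
        h z hz (Finset.mem_toList.2 hz')
      rw [ind_false hl, ind_false hl', zero_mul, zero_mul]
  · rw [if_neg hs]
    have h2 : W K t y (fun l => ind (∀ z ∈ l, z ∉ D.toList) * lev s y (Rt o f y) l) =
        W K t y (fun _ => 0) := by
      refine W_congr K t y fun l _ => ?_
      by_cases hl : ∀ z ∈ l, z ∉ D
      · unfold lev
        rw [key l hl, ind_false (by omega : ¬ lel y l + dep {o} f y + 1 = s + 1), mul_zero]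
      · have hl' : ¬ ∀ z ∈ l, z ∉ D.toList := fun h => hl fun z hz hz' =>
          h z hz (Finset.mem_toList.2 hz')
        rw [ind_false hl', zero_mul]
    rw [h2, Pool.Agent.helper20.HP.W_const]

/-- the bridge -/
theorem bridge (hBR : BR_stmt) {G : SimpleGraph V} {d : ℕ} {K : HW V} (hG : Reg G d)
    (hK : K.p = lz G d) {o : V} {f : V → V} {D : Finset V} (hf : f ∈ fors G {o})
    (hD : Cl {o} D f) (s : ℕ) :
    Phi K D.toList (Rt o f) s = PhiD G o f D s 1 := by
  have h1 := hBR V G d K hG hK o f D hf hD s
  rw [← h1.tsum_eq]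
  unfold Phi
  refine tsum_congr fun t => Bridge_kmT K D ?_ s t
  intro x hx y hy
  have h2 : y ∈ pth {o} f x := by rw [← Bridge_cons]; exact List.mem_cons_of_mem _ hy
  exact Bridge_iter hD.map _ x hx y h2

/-- windows -/
theorem PhiD_window (G : SimpleGraph V) (o : V) (f : V → V) (D : Finset V) (r w : ℕ) :
    PhiD G o f D r w = ∑ y ∈ range w, PhiD G o f D (r + y) 1 := by
  unfold PhiD Pool.Agent.helper90.FN.EF
  rw [← Finset.sum_div, Finset.sum_comm]
  congr 1
  refine Finset.sum_congr rfl fun g _ => ?_
  unfold Pool.Agent.helper90.FN.bs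
  rw [Finset.sum_comm]
  refine Finset.sum_congr rfl fun v _ => ?_
  set q := dep {o} (Pool.Agent.helper90.FN.glue D f g) v
  by_cases h : r ≤ q ∧ q < r + w
  · rw [ind_true h, Finset.sum_eq_single (q - r)]
    · rw [ind_true (by omega)]
    · intro b _ hb
      rw [ind_false (by omega)]
    · intro hb
      rw [Finset.mem_range] at hb
      omega
  · rw [ind_false h]
    symm
    refine Finset.sum_eq_zero fun b hb => ?_
    rw [Finset.mem_range] at hb
    rw [ind_false]
    intro h2
    apply h
    omega

end Pool.Agent.UQ.Sk
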