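import Pool.Agent.UQ.Sk.LB1
import Pool.Agent.UQ.LB2
/-!
# Q5 LBfin : the oscillating sum is controlled by `mR` and `bad`

`LB1`: choose `u`, `‖u‖ = 1`, with `‖∑_y z^(r+y) Phi (r+y)‖ = Re (u z ∑_y z^(r+y) Phi (r+y)) = Kf (chi * Re (u z^sl))` (`Kf_chi_mul` with `φ n = Re (u z^n)`). For each `s < N`, by `Kf_me` with
`G = Re (u z^sl)` (`|G| ≤ 1`): `≤ Kf (chi(l) * W s (Re (u z^(sl (l++l'))))) + err`. Average over `s < N`: `N⁻¹ ∑_s W s (lst x l) (Re (u z^(sl(l++l')))) = Re (u FN (run (x::ρ) l)) ≤ ‖FN …‖`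
(`HP.run_head`, `run_append`, `WC_re`).
`LB2`: `chi * ‖FN(state)‖` is bounded with `FN_loc` for words `l = l1 ++ (l2 ++ l3)`, `|l2| = 2h`, `|l3| = R` (shorter words: `km_chi_le`; `Kf_split` with `s = 2h + R`), the three terms (use `Kf_loc` for (1), (2), and `Kf_split_le` for (3)):
 (1) `ψ v₁ l' = ‖FP (lst v₁ (l'.take (2h)) :: l'.drop (2h))‖`, `W (2h+R) v₁ ψ = ∑_y pt (2h) v₁ y * W R y (‖FP (y :: ·)‖) ≤ 3/(2n) ∑_y … = 3/2 mR` (`Par.mix`);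
 (2) `ψ v₁ l' = W N (lst v₁ l') (ind no cut)`, `W (2h+R) v₁ ψ = bad K (2h) R N` (for every `v₁`, by homogeneity `W_homog`);
 (3) `Kf_LHnext`.
-/

open Finset Filter
open Pool.Agent.helper20.HP hiding Phi PhiN PhiN_le_Phi PhiN_nonneg PhiN_tendsto Phi_nonneg kac km kmT kmT_abs_le kmT_add kmT_congr
  kmT_mono kmT_mul_left kmT_nonneg kmT_split kmT_sum km_add km_mono km_mono_N km_mul_left km_nonneg
  km_split km_sum phi_bound short_words summable_kmT LH_mass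
open Pool.Agent.helper57.HPT

namespace Pool.Agent.UQ.Sk

variable {V : Type} [Fintype V] [DecidableEq V] {K : HW V} {θ : ℝ} {h : ℕ} {Γ : List V} {Rp : V → List V}

theorem LB2 (hP : Par K θ h) {J : ℕ} (hΓ : Ok Γ Rp J) {z : ℂ} (hz : ‖z‖ = 1) {N R : ℕ} (hN : 0 < N)
    (hN' : N ≤ 2 * h) (hR : R ≤ 2 * h) {r w m : ℕ} {P : ℝ} (hPm : ∀ y ≤ m, Phi K Γ Rp y ≤ P) (hm : r + w + 8 * h ≤ m) :
    Kf K Γ Rp (fun x ρ l => chi r w x ρ l * ‖FN K z N (run (x :: ρ) l)‖) ≤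
      (3 / 2 * mR K z N R + 2 * bad K (2 * h) R N) * ((w + 8 * h) * P)
      + (25 * (w * CJ J θ * (2 * (h : ℝ) + R + N + 1)) + 4 * (2 * h) * P
        + 2 * N * Γ.length) := by
  set k := 2 * h + R with hk
  have hk4 : k ≤ 4 * h := by omega
  have hchi0 : ∀ x ρ l, 0 ≤ chi r w x ρ l := fun x ρ (l : List V) =>
    Pool.Agent.helper20.HP.ind_nonneg _
  have hchi1 : ∀ x ρ l, chi r w x ρ l ≤ 1 := fun x ρ (l : List V) =>
    Pool.Agent.helper20.HP.ind_le_one _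
  have hav0 : ∀ l, 0 ≤ av Γ l := fun l => Pool.Agent.helper20.HP.ind_nonneg _
  have hav1 : ∀ l, av Γ l ≤ 1 := fun l => Pool.Agent.helper20.HP.ind_le_one _
  have hp10 : ∀ v l', 0 ≤ LB2_p1 K z N (2 * h) v l' := fun v l' => norm_nonneg _
  have hp11 : ∀ v l', LB2_p1 K z N (2 * h) v l' ≤ 1 := fun v l' => norm_FP_le K hz N _
  have hp20 : ∀ v l', 0 ≤ LB2_p2 K N (2 * h) R v l' := fun v l' =>
    LB2_W0 K N _ fun _ => ind_nonneg _
  have hp21 : ∀ v l', LB2_p2 K N (2 * h) R v l' ≤ 1 := fun v l' =>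
    LB2_W1 K N _ fun _ => ind_le_one _
  have hp30 : ∀ x ρ l, 0 ≤ LB2_p3 K N (2 * h) R x ρ l := fun x ρ l =>
    LB2_W0 K N _ fun _ => Pool.Agent.helper20.HP.ind_nonneg _
  have hp31 : ∀ x ρ l, LB2_p3 K N (2 * h) R x ρ l ≤ 1 := fun x ρ l =>
    LB2_W1 K N _ fun _ => Pool.Agent.helper20.HP.ind_le_one _
  have hF0 : ∀ x ρ l, 0 ≤ ‖FN K z N (run (x :: ρ) l)‖ := fun x ρ l => norm_nonneg _
  have hF1 : ∀ x ρ l, ‖FN K z N (run (x :: ρ) l)‖ ≤ 1 := fun x ρ l => LB2_FN_le K hz N _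
  -- products
  have hmul0 : ∀ {a b : ℝ}, 0 ≤ a → 0 ≤ b → 0 ≤ a * b := fun ha hb => mul_nonneg ha hb
  have hmul1 : ∀ {a b : ℝ}, 0 ≤ b → a ≤ 1 → b ≤ 1 → a * b ≤ 1 := fun hb ha1 hb1 =>
    (mul_le_of_le_one_left hb ha1).trans hb1
  -- the three pieces
  set A : V → List V → List V → ℝ := fun x ρ l => W K k (lst x l) (fun l' => av Γ l' *
      (chi r w x ρ (l ++ l') * LB2_p1 K z N (2 * h) (lst x l) l')) with hA
  set B : V → List V → List V → ℝ := fun x ρ l => W K k (lst x l) (fun l' => av Γ l' *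
      (chi r w x ρ (l ++ l') * LB2_p2 K N (2 * h) R (lst x l) l')) with hB
  set C : V → List V → List V → ℝ := fun x ρ l => W K k (lst x l) (fun l' => av Γ l' *
      (chi r w x ρ (l ++ l') * LB2_p3 K N (2 * h) R x ρ (l ++ l'))) with hC
  have hA0 : ∀ x ρ l, 0 ≤ A x ρ l := fun x ρ l => LB2_W0 K k _ fun l' =>
    hmul0 (hav0 _) (hmul0 (hchi0 _ _ _) (hp10 _ _))
  have hA1 : ∀ x ρ l, A x ρ l ≤ 1 := fun x ρ l => LB2_W1 K k _ fun l' =>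
    hmul1 (hmul0 (hchi0 _ _ _) (hp10 _ _)) (hav1 _) (hmul1 (hp10 _ _) (hchi1 _ _ _) (hp11 _ _))
  have hB0 : ∀ x ρ l, 0 ≤ B x ρ l := fun x ρ l => LB2_W0 K k _ fun l' =>
    hmul0 (hav0 _) (hmul0 (hchi0 _ _ _) (hp20 _ _))
  have hB1 : ∀ x ρ l, B x ρ l ≤ 1 := fun x ρ l => LB2_W1 K k _ fun l' =>
    hmul1 (hmul0 (hchi0 _ _ _) (hp20 _ _)) (hav1 _) (hmul1 (hp20 _ _) (hchi1 _ _ _) (hp21 _ _))
  have hC0 : ∀ x ρ l, 0 ≤ C x ρ l := fun x ρ l => LB2_W0 K k _ fun l' =>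
    hmul0 (hav0 _) (hmul0 (hchi0 _ _ _) (hp30 _ _ _))
  have hC1 : ∀ x ρ l, C x ρ l ≤ 1 := fun x ρ l => LB2_W1 K k _ fun l' =>
    hmul1 (hmul0 (hchi0 _ _ _) (hp30 _ _ _)) (hav1 _)
      (hmul1 (hp30 _ _ _) (hchi1 _ _ _) (hp31 _ _ _))
  have bA : Bd A := LB2_bd01 hA0 hA1
  have bB : Bd B := LB2_bd01 hB0 hB1
  have bC : Bd C := LB2_bd01 hC0 hC1
  have b2B : Bd (fun x ρ l => 2 * B x ρ l) := ⟨2, fun x ρ l => abs_le.mpr
    ⟨by linarith [hB0 x ρ l], by linarith [hB1 x ρ l]⟩⟩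
  have b2C : Bd (fun x ρ l => 2 * C x ρ l) := ⟨2, fun x ρ l => abs_le.mpr
    ⟨by linarith [hC0 x ρ l], by linarith [hC1 x ρ l]⟩⟩
  have bAB : Bd (fun x ρ l => A x ρ l + 2 * B x ρ l) := ⟨3, fun x ρ l => abs_le.mpr
    ⟨by linarith [hA0 x ρ l, hB0 x ρ l], by linarith [hA1 x ρ l, hB1 x ρ l]⟩⟩
  have bABC : Bd (fun x ρ l => (A x ρ l + 2 * B x ρ l) + 2 * C x ρ l) := ⟨5, fun x ρ l =>
    abs_le.mpr ⟨by linarith [hA0 x ρ l, hB0 x ρ l, hC0 x ρ l],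
      by linarith [hA1 x ρ l, hB1 x ρ l, hC1 x ρ l]⟩⟩
  have bF : Bd (fun x ρ l => chi r w x ρ l * ‖FN K z N (run (x :: ρ) l)‖) :=
    LB2_bd01 (fun x ρ l => hmul0 (hchi0 _ _ _) (hF0 _ _ _))
      (fun x ρ l => hmul1 (hF0 _ _ _) (hchi1 _ _ _) (hF1 _ _ _))
  have s1 := Kf_split K hΓ bF k
  -- short words
  have s2 : km K Γ Rp k (fun x ρ l => chi r w x ρ l * ‖FN K z N (run (x :: ρ) l)‖)
      ≤ w * k * CJ J θ := by
    refine le_trans (km_mono K Γ Rp k (g := chi r w) fun i l _ _ => ?_)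
      (km_chi_le hP hΓ (s := k) (by have := hP.h_le; omega) r w)
    exact mul_le_of_le_one_right (hchi0 _ _ _) (hF1 _ _ _)
  -- long words
  have s3 : Kf K Γ Rp (fun x ρ l => W K k (lst x l) (fun l' => av Γ l' *
      (fun x ρ l => chi r w x ρ l * ‖FN K z N (run (x :: ρ) l)‖) x ρ (l ++ l')))
      ≤ Kf K Γ Rp (fun x ρ l => (A x ρ l + 2 * B x ρ l) + 2 * C x ρ l) := by
    refine Kf_mono K hΓ ?_ bABC ?_
    · exact LB2_bd01 (fun x ρ l => LB2_W0 K k _ fun l' =>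
          hmul0 (hav0 _) (hmul0 (hchi0 _ _ _) (hF0 _ _ _)))
        (fun x ρ l => LB2_W1 K k _ fun l' => hmul1 (hmul0 (hchi0 _ _ _) (hF0 _ _ _)) (hav1 _)
          (hmul1 (hF0 _ _ _) (hchi1 _ _ _) (hF1 _ _ _)))
    · intro x ρ l hnd _ _ _
      simp only [hA, hB, hC]
      rw [← W_mul_left, ← W_mul_left, ← W_add, ← W_add]
      refine W_mono K fun l' hl' => ?_
      have h2 : (l'.take (2 * h)).length = 2 * h := by
        rw [List.length_take, hl']; omega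
      have h3 : (l'.drop (2 * h)).length = R := by
        rw [List.length_drop, hl']; omega
      have key := FN_loc K hz hN (2 * h) R x ρ l (l'.take (2 * h)) (l'.drop (2 * h)) hnd h2 h3
      rw [List.take_append_drop] at key
      have e2 : W K N (lst (lst x l) l') (fun e => ind (¬ ∃ c, 2 * h < c ∧ c ≤ 2 * h + R ∧
          List.Disjoint ((lst x l :: l' ++ e).take c) ((lst x l :: l' ++ e).drop c))) =
          LB2_p2 K N (2 * h) R (lst x l) l' := rfl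
      have e3 : W K N (lst (lst x l) l') (fun e =>
          Pool.Agent.helper20.HP.ind (LHin (2 * h) (R + N) x ρ (l ++ l' ++ e))) =
          LB2_p3 K N (2 * h) R x ρ (l ++ l') := by
        unfold LB2_p3
        rw [LO_lst_append]
      have e1 : ‖FP K z N (lst (lst x l) (l'.take (2 * h)) :: l'.drop (2 * h))‖ =
          LB2_p1 K z N (2 * h) (lst x l) l' := rfl
      rw [e1, e2, e3] at key
      have hc := hchi0 x ρ (l ++ l')
      have ha := hav0 l'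
      have hac : 0 ≤ av Γ l' * chi r w x ρ (l ++ l') := mul_nonneg ha hc
      have := mul_le_mul_of_nonneg_left key hac
      calc av Γ l' * (chi r w x ρ (l ++ l') * ‖FN K z N (run (x :: ρ) (l ++ l'))‖)
          = av Γ l' * chi r w x ρ (l ++ l') * ‖FN K z N (run (x :: ρ) (l ++ l'))‖ := by ring
        _ ≤ _ := this
        _ = _ := by ring
  have s4 : Kf K Γ Rp (fun x ρ l => (A x ρ l + 2 * B x ρ l) + 2 * C x ρ l)
      = Kf K Γ Rp A + 2 * Kf K Γ Rp B + 2 * Kf K Γ Rp C := by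
    rw [Kf_add K hΓ bAB b2C, Kf_add K hΓ bA b2B, Kf_mul_left, Kf_mul_left]
  have sA := Kf_loc hP hΓ hk4 hPm hm (LB2_p1 K z N (2 * h)) hp10 hp11
    (ε₀ := 3 / 2 * mR K z N R) (fun v => LB2_W_p1 hP z N R v)
  have sB := Kf_loc hP hΓ hk4 hPm hm (LB2_p2 K N (2 * h) R) hp20 hp21
    (ε₀ := bad K (2 * h) R N) (fun v => (LB2_W_p2 K N (2 * h) R v).le)
  have sC : Kf K Γ Rp C ≤ N * Γ.length + 4 * (w * CJ J θ * ((R : ℝ) + N + 1))
      + 2 * (2 * h) * P := by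
    have b3 : Bd (fun x ρ l => chi r w x ρ l * LB2_p3 K N (2 * h) R x ρ l) :=
      LB2_bd01 (fun x ρ l => hmul0 (hchi0 _ _ _) (hp30 _ _ _))
        (fun x ρ l => hmul1 (hp30 _ _ _) (hchi1 _ _ _) (hp31 _ _ _))
    refine (Kf_split_le K hΓ b3 (fun x ρ l => hmul0 (hchi0 _ _ _) (hp30 _ _ _)) k).trans ?_
    exact Kf_LHnext hP hΓ hR hN' hPm (by omega)
  rw [s1]
  have hkc : (k : ℝ) = 2 * (h : ℝ) + R := by rw [hk]; push_cast; ring
  have hCZ : 0 ≤ w * CJ J θ := mul_nonneg (Nat.cast_nonneg w) (CJ_nonneg J θ)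
  rw [hkc] at s2 sA sB
  have hh : (0 : ℝ) ≤ h := Nat.cast_nonneg h
  have hRR : (0 : ℝ) ≤ R := Nat.cast_nonneg R
  have hNN : (0 : ℝ) ≤ N := Nat.cast_nonneg N
  have q1 : w * CJ J θ * (2 * (h : ℝ) + R) ≤ w * CJ J θ * (2 * (h : ℝ) + R + N + 1) :=
    mul_le_mul_of_nonneg_left (by linarith) hCZ
  have q2 : w * CJ J θ * (2 * (h : ℝ) + R + 1) ≤ w * CJ J θ * (2 * (h : ℝ) + R + N + 1) :=
    mul_le_mul_of_nonneg_left (by linarith) hCZ
  have q3 : w * CJ J θ * ((R : ℝ) + N + 1) ≤ w * CJ J θ * (2 * (h : ℝ) + R + N + 1) :=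
    mul_le_mul_of_nonneg_left (by linarith) hCZ
  have q4 : 0 ≤ w * CJ J θ * (2 * (h : ℝ) + R + N + 1) := mul_nonneg hCZ (by linarith)
  have hs3 := s3.trans s4.le
  have z1 : (w : ℝ) * (2 * (h : ℝ) + R) * CJ J θ = w * CJ J θ * (2 * (h : ℝ) + R) := by ring
  have z2 : (w : ℝ) * (3 / 2 * CJ J θ * (2 * (h : ℝ) + R + 1)) =
      3 / 2 * (w * CJ J θ * (2 * (h : ℝ) + R + 1)) := by ring
  rw [z1] at s2
  rw [z2] at sA sB
  set P := P with hPdef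
  have z3 : (3 / 2 * mR K z N R + 2 * bad K (2 * h) R N) * ((w + 8 * h) * P) =
      3 / 2 * mR K z N R * ((w + 8 * h) * P) + 2 * (bad K (2 * h) R N * ((w + 8 * h) * P)) := by
    ring
  rw [z3]
  have z4 : 4 * (2 * (h : ℝ)) * P = 2 * (2 * (2 * (h : ℝ)) * P) := by ring
  rw [z4]
  linarith


end Pool.Agent.UQ.Sk
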