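import Pool.Agent.UQ.Sk.KfLoc
import Pool.Agent.UQ.OneStep
/-!
# Q6 OneStep : the one step identity

`K.p x x = 1/2`. For a word `l` with state `γ = run (x::ρ) l`, tip `t = lst x l`, and a next vertex `y` call the step bad if `y ≠ t` and `z^|stp γ y| ≠ z * z^|γ|`. Then
`WC 1 t (z^sl(l ++ [y])) = (1+z)/2 z^sl(l) + O(2 * P(bad))`. Choose `u`, `‖u‖ = 1`, with `Re (u (1 - (1+z)/2) z ∑_y z^(r+y) Phi (r+y)) = ‖(1-z)/2‖ ‖∑ …‖` and use `Kf_chi_mul` (for `φ n = Re (u z^n)` and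
`φ n = Re (u (1+z)/2 z^n)`) and `Kf_me` with `s = 1`, `G = Re (u z^sl)`.
A next vertex `y ∈ Γ` costs at most `Kf_kill` with `s = 1`. The mass of the words with a bad next step `y ∉ Γ`: hypothesis `hbad` says that a bad step from a state with nodup start which is not a long hit (`HP.LH`) is a local event `ψ` of the last `2h` steps and of the next vertex; its probability is `≤ δ`:
`Kf (chi * W 1 (ind bad)) ≤ Kf (chi * W 1 (ind (LHin (2h) 1 (l ++ [y])))) + Kf (chi * ψ-part)`; first term `Kf_LHnext` with `R = 0`, `N = 1`; second term: `Kf_loc'` with `k = 2h` (words of length `≥ 2h`; for shorter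
words bound by 1, that is inside `Kf_loc'` since `hfψ` only concerns words `l ++ l'`) and `ψ' v l' = W 1 (lst v l') (fun m => ψ v (l' ++ m))`, `W (2h) v ψ' = W (2h+1) v ψ ≤ δ`.
-/

open Finset Filter
open Pool.Agent.helper20.HP hiding Phi PhiN PhiN_le_Phi PhiN_nonneg PhiN_tendsto Phi_nonneg kac km kmT kmT_abs_le kmT_add kmT_congr
  kmT_mono kmT_mul_left kmT_nonneg kmT_split kmT_sum km_add km_mono km_mono_N km_mul_left km_nonneg
  km_split km_sum phi_bound short_words summable_kmT LH_mass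
open Pool.Agent.helper57.HPT

namespace Pool.Agent.UQ.Sk

variable {V : Type} [Fintype V] [DecidableEq V] {K : HW V} {θ : ℝ} {h : ℕ} {Γ : List V} {Rp : V → List V}

theorem OneStep_key {J : ℕ} (hΓ : Ok Γ Rp J) (z c : ℂ) (r w : ℕ) :
    Kf K Γ Rp (fun x ρ l => chi r w x ρ l * (c * z ^ sl x ρ l).re) =
      (c * z * ∑ y ∈ range w, z ^ (r + y) * ((Phi K Γ Rp (r + y) : ℝ) : ℂ)).re := by
  rw [Kf_chi_mul K hΓ r w (fun n => (c * z ^ n).re), Finset.mul_sum, Complex.re_sum]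
  refine Finset.sum_congr rfl fun y _ => ?_
  have : c * z * (z ^ (r + y) * ((Phi K Γ Rp (r + y) : ℝ) : ℂ)) =
      (c * z ^ (r + y + 1)) * ((Phi K Γ Rp (r + y) : ℝ) : ℂ) := by ring
  rw [this, Complex.re_mul_ofReal]

theorem OneStep_bad_mass (hP : Par K θ h) {J : ℕ} (hΓ : Ok Γ Rp J) {z : ℂ}
    {r w m : ℕ} {P : ℝ} (hPm : ∀ y ≤ m, Phi K Γ Rp y ≤ P) (hm : r + w + 8 * h ≤ m) (ψ : V → List V → ℝ) (h0 : ∀ v l, 0 ≤ ψ v l)
    (h1 : ∀ v l, ψ v l ≤ 1) {δ : ℝ} (hδ : ∀ v, W K (2 * h + 1) v (ψ v) ≤ δ)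
    (hbad : ∀ x ρ l l' y, (x :: ρ).Nodup → (∀ u ∈ x :: ρ, u ∈ Γ) → (∀ u ∈ l ++ l' ++ [y], u ∉ Γ) →
      Wk K x (l ++ l' ++ [y]) → l'.length = 2 * h → y ≠ lst x (l ++ l') →
      z ^ (stp (run (x :: ρ) (l ++ l')) y).length ≠ z * z ^ sl x ρ (l ++ l') →
      ¬ LH (2 * h) x ρ (l ++ l') y → ψ (lst x l) (l' ++ [y]) = 1) :
    Kf K Γ Rp (fun x ρ l => chi r w x ρ l *
      W K 1 (lst x l) (fun l' => Pool.Agent.helper20.HP.ind (OneStep_bad z x ρ l l'))) ≤
      Γ.length + (Γ.length + 4 * (w * CJ J θ * 2) + 2 * (2 * h) * P) +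
      (δ * ((w + 8 * h) * P) + 3 * (w * CJ J θ * (2 * (h : ℝ) + 1))) := by
  have hh1 := hP.h_pos
  -- the three functions
  set f₁ : V → List V → List V → ℝ := fun x _ l => W K 1 (lst x l) (fun l' => 1 - av Γ l') with hf₁
  set f₂ : V → List V → List V → ℝ := fun x ρ l => chi r w x ρ l * W K 1 (lst x l) (fun l' =>
      Pool.Agent.helper20.HP.ind (LHin (2 * h) (0 + 1) x ρ (l ++ l'))) with hf₂
  set g₃ : V → List V → List V → ℝ := fun x ρ l => W K 1 (lst x l) (fun l' =>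
      Pool.Agent.helper20.HP.ind (OneStep_E Γ h z x ρ l l')) with hg₃
  set f₃ : V → List V → List V → ℝ := fun x ρ l => chi r w x ρ l * g₃ x ρ l with hf₃
  have hi0 : ∀ p : Prop, 0 ≤ Pool.Agent.helper20.HP.ind p := fun p =>
    Pool.Agent.helper20.HP.ind_nonneg p
  have hi1 : ∀ p : Prop, Pool.Agent.helper20.HP.ind p ≤ 1 := fun p =>
    Pool.Agent.helper20.HP.ind_le_one p
  have hc0 := KfLoc_chi_nonneg (V := V) r w
  have hc1 := KfLoc_chi_le_one (V := V) r w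
  have hW0 : ∀ (k : ℕ) (x : V) (f : List V → ℝ), (∀ l, 0 ≤ f l) → 0 ≤ W K k x f :=
    fun k x f hf => Pool.Agent.helper20.HP.W_nonneg K k x fun l _ => hf l
  have hB1 : Bd f₁ := KfLoc_Bd
    (fun x ρ l => hW0 _ _ _ fun l' => by have := KfLoc_av_le_one Γ l'; linarith)
    (fun x ρ l => KfLoc_W_le_one _ _ fun l' => by have := KfLoc_av_nonneg Γ l'; linarith)
  have hB2 : Bd f₂ := KfLoc_Bd
    (fun x ρ l => mul_nonneg (hc0 _ _ _) (hW0 _ _ _ fun l' => hi0 _))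
    (fun x ρ l => mul_le_one₀ (hc1 _ _ _) (hW0 _ _ _ fun l' => hi0 _)
      (KfLoc_W_le_one _ _ fun l' => hi1 _))
  have hg30 : ∀ x ρ l, 0 ≤ g₃ x ρ l := fun x ρ l => hW0 _ _ _ fun l' => hi0 _
  have hg31 : ∀ x ρ l, g₃ x ρ l ≤ 1 := fun x ρ l => KfLoc_W_le_one _ _ fun l' => hi1 _
  have hB3 : Bd f₃ := KfLoc_Bd
    (fun x ρ l => mul_nonneg (hc0 _ _ _) (hg30 _ _ _))
    (fun x ρ l => mul_le_one₀ (hc1 _ _ _) (hg30 _ _ _) (hg31 _ _ _))
  have hB0 : Bd (fun x ρ l => chi r w x ρ l *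
      W K 1 (lst x l) (fun l' => Pool.Agent.helper20.HP.ind (OneStep_bad z x ρ l l'))) := KfLoc_Bd
    (fun x ρ l => mul_nonneg (hc0 _ _ _) (hW0 _ _ _ fun l' => hi0 _))
    (fun x ρ l => mul_le_one₀ (hc1 _ _ _) (hW0 _ _ _ fun l' => hi0 _)
      (KfLoc_W_le_one _ _ fun l' => hi1 _))
  have hB12 : Bd (fun x ρ l => f₁ x ρ l + f₂ x ρ l) := by
    obtain ⟨C₁, hC₁⟩ := hB1
    obtain ⟨C₂, hC₂⟩ := hB2
    exact ⟨C₁ + C₂, fun x ρ l => (abs_add_le _ _).trans (add_le_add (hC₁ x ρ l) (hC₂ x ρ l))⟩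
  have hB123 : Bd (fun x ρ l => f₁ x ρ l + f₂ x ρ l + f₃ x ρ l) := by
    obtain ⟨C₁, hC₁⟩ := hB12
    obtain ⟨C₂, hC₂⟩ := hB3
    exact ⟨C₁ + C₂, fun x ρ l => (abs_add_le _ _).trans (add_le_add (hC₁ x ρ l) (hC₂ x ρ l))⟩
  have hmain : Kf K Γ Rp (fun x ρ l => chi r w x ρ l *
      W K 1 (lst x l) (fun l' => Pool.Agent.helper20.HP.ind (OneStep_bad z x ρ l l'))) ≤
      Kf K Γ Rp (fun x ρ l => f₁ x ρ l + f₂ x ρ l + f₃ x ρ l) := by
    refine Kf_mono K hΓ hB0 hB123 fun x ρ l _ _ _ _ => ?_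
    have hp : W K 1 (lst x l) (fun l' => Pool.Agent.helper20.HP.ind (OneStep_bad z x ρ l l')) ≤
        W K 1 (lst x l) (fun l' => (1 - av Γ l') +
          (Pool.Agent.helper20.HP.ind (LHin (2 * h) (0 + 1) x ρ (l ++ l')) +
          Pool.Agent.helper20.HP.ind (OneStep_E Γ h z x ρ l l'))) := by
      refine Pool.Agent.helper20.HP.W_mono K 1 _ fun l' _ => ?_
      have a1 : 0 ≤ 1 - av Γ l' := by have := KfLoc_av_le_one Γ l'; linarith
      by_cases hb : OneStep_bad z x ρ l l'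
      · by_cases hav : ∀ y ∈ l', y ∉ Γ
        · by_cases hL : LHin (2 * h) (0 + 1) x ρ (l ++ l')
          · rw [Pool.Agent.helper20.HP.ind_true hL]
            linarith [hi1 (OneStep_bad z x ρ l l'), hi0 (OneStep_E Γ h z x ρ l l')]
          · have hE : OneStep_E Γ h z x ρ l l' := ⟨hb, hav, hL⟩
            rw [Pool.Agent.helper20.HP.ind_true hE]
            linarith [hi1 (OneStep_bad z x ρ l l'), hi0 (LHin (2 * h) (0 + 1) x ρ (l ++ l'))]
        · have : av Γ l' = 0 := Pool.Agent.helper20.HP.ind_false hav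
          rw [this]
          linarith [hi1 (OneStep_bad z x ρ l l'), hi0 (LHin (2 * h) (0 + 1) x ρ (l ++ l')),
            hi0 (OneStep_E Γ h z x ρ l l')]
      · rw [Pool.Agent.helper20.HP.ind_false hb]
        linarith [hi0 (LHin (2 * h) (0 + 1) x ρ (l ++ l')), hi0 (OneStep_E Γ h z x ρ l l')]
    rw [Pool.Agent.helper20.HP.W_add, Pool.Agent.helper20.HP.W_add] at hp
    have h2 := mul_le_mul_of_nonneg_left hp (hc0 x ρ l)
    refine h2.trans ?_
    have h3 : 0 ≤ W K 1 (lst x l) (fun l' => 1 - av Γ l') := hW0 _ _ _ fun l' => by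
      have := KfLoc_av_le_one Γ l'; linarith
    have h4 : chi r w x ρ l * W K 1 (lst x l) (fun l' => 1 - av Γ l') ≤
        W K 1 (lst x l) (fun l' => 1 - av Γ l') := mul_le_of_le_one_left h3 (hc1 x ρ l)
    simp only [hf₁, hf₂, hf₃, hg₃]
    linarith
  refine hmain.trans ?_
  rw [Kf_add K hΓ hB12 hB3, Kf_add K hΓ hB1 hB2]
  have e1 : Kf K Γ Rp f₁ ≤ Γ.length := by
    have := Kf_kill K hΓ 1
    rw [Nat.cast_one, one_mul] at this
    exact this
  have e2 : Kf K Γ Rp f₂ ≤ Γ.length + 4 * (w * CJ J θ * 2) + 2 * (2 * h) * P := by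
    have := Kf_LHnext hP hΓ (R := 0) (N := 1) (by omega) (by omega) (r := r) (w := w) (m := m) hPm
      (by omega)
    push_cast at this
    rw [one_mul, zero_add] at this
    have e : (1 : ℝ) + 1 = 2 := by norm_num
    rw [e] at this
    exact this
  have e3 : Kf K Γ Rp f₃ ≤ δ * ((w + 8 * h) * P) +
      3 * (w * CJ J θ * (2 * (h : ℝ) + 1)) := by
    have := Kf_loc' hP hΓ (k := 2 * h) (by omega) hPm hm g₃ hg30 hg31
      (fun v l' => W K 1 (lst v l') (fun m => ψ v (l' ++ m)))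
      (fun v l' => hW0 _ _ _ fun _ => h0 _ _) (fun v l' => KfLoc_W_le_one _ _ fun _ => h1 _ _)
      (by
        intro x ρ l l' hnd hin hout hwk hlen
        have hlst : lst x (l ++ l') = lst (lst x l) l' := lst_append x l l'
        simp only [hg₃]
        rw [← hlst]
        refine W_mono_supp K fun m' hm' hwk' => ?_
        obtain ⟨y, rfl⟩ := List.length_eq_one_iff.mp hm'
        by_cases hE : OneStep_E Γ h z x ρ (l ++ l') [y]
        · obtain ⟨⟨hE1, hE2⟩, hE3, hE4⟩ := hE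
          rw [lst_concat] at hE1
          rw [OneStep_sl] at hE2
          have hLH : ¬ LH (2 * h) x ρ (l ++ l') y := fun hL =>
            hE4 ⟨l ++ l', y, [], rfl, by simp, hL⟩
          have := hbad x ρ l l' y hnd hin (by
            intro u hu
            rcases List.mem_append.mp hu with hu | hu
            · exact hout u hu
            · exact hE3 u hu) (OneStep_wk hwk hwk') hlen hE1 hE2 hLH
          rw [this]
          exact hi1 _
        · rw [Pool.Agent.helper20.HP.ind_false hE]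
          exact h0 _ _)
      (ε₀ := δ) (by
        intro v
        have := hδ v
        rw [Pool.Agent.helper20.HP.W_split] at this
        exact this)
    push_cast at this
    exact this
  linarith

theorem one_step (hP : Par K θ h) {J : ℕ} (hΓ : Ok Γ Rp J) (hhalf : ∀ x, K.p x x = 1 / 2) {z : ℂ} (hz : ‖z‖ = 1)
    {r w m : ℕ} {P : ℝ} (hPm : ∀ y ≤ m, Phi K Γ Rp y ≤ P) (hm : r + w + 8 * h ≤ m) (ψ : V → List V → ℝ) (h0 : ∀ v l, 0 ≤ ψ v l)
    (h1 : ∀ v l, ψ v l ≤ 1) {δ : ℝ} (hδ : ∀ v, W K (2 * h + 1) v (ψ v) ≤ δ)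
    (hbad : ∀ x ρ l l' y, (x :: ρ).Nodup → (∀ u ∈ x :: ρ, u ∈ Γ) → (∀ u ∈ l ++ l' ++ [y], u ∉ Γ) →
      Wk K x (l ++ l' ++ [y]) → l'.length = 2 * h → y ≠ lst x (l ++ l') →
      z ^ (stp (run (x :: ρ) (l ++ l')) y).length ≠ z * z ^ sl x ρ (l ++ l') →
      ¬ LH (2 * h) x ρ (l ++ l') y → ψ (lst x l) (l' ++ [y]) = 1) :
    ‖(1 - z) / 2‖ * ‖∑ y ∈ range w, z ^ (r + y) * ((Phi K Γ Rp (r + y) : ℝ) : ℂ)‖ ≤
      2 * (δ * ((w + 8 * h) * P))
      + (30 * (w * CJ J θ * (2 * (h : ℝ) + 1)) + 8 * (2 * h) * P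
        + 5 * Γ.length) := by
  have hh1 := hP.h_pos
  set S : ℂ := ∑ y ∈ range w, z ^ (r + y) * ((Phi K Γ Rp (r + y) : ℝ) : ℂ) with hS
  obtain ⟨u, hu, hu2⟩ := Complex.exists_norm_eq_mul_self ((1 - z) / 2 * z * S)
  have hnorm : ‖(1 - z) / 2‖ * ‖S‖ = (u * z * S).re - (u * ((1 + z) / 2) * z * S).re := by
    have h2 : ‖(1 - z) / 2 * z * S‖ = ‖(1 - z) / 2‖ * ‖S‖ := by
      rw [norm_mul, norm_mul, hz, mul_one]
    rw [← h2, ← Complex.sub_re]
    have h3 : u * z * S - u * ((1 + z) / 2) * z * S = u * ((1 - z) / 2 * z * S) := by ring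
    rw [h3, ← hu2, Complex.ofReal_re]
  have k1 := OneStep_key (K := K) hΓ z u r w
  have k2 := OneStep_key (K := K) hΓ z (u * ((1 + z) / 2)) r w
  rw [← hS] at k1 k2
  rw [hnorm, ← k1, ← k2]
  have hc0 := KfLoc_chi_nonneg (V := V) r w
  have hc1 := KfLoc_chi_le_one (V := V) r w
  have hme := Kf_me hP hΓ (s := 1) (by omega) (r := r) (w := w) (m := m) hPm (by omega)
    (fun (x : V) (ρ l : List V) => (u * z ^ sl x ρ l).re) (fun _ _ _ => OneStep_re_le hu hz _)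
  have hmass := OneStep_bad_mass hP hΓ hPm hm ψ h0 h1 hδ hbad
  have hB1 : Bd (fun x ρ l => chi r w x ρ l *
      W K 1 (lst x l) (fun l' => (u * z ^ sl x ρ (l ++ l')).re)) := by
    refine ⟨1, fun x ρ l => ?_⟩
    rw [abs_mul, abs_of_nonneg (hc0 x ρ l)]
    refine mul_le_one₀ (hc1 x ρ l) (abs_nonneg _) ?_
    refine (Pool.Agent.helper20.HP.W_abs_le K 1 _ _).trans ?_
    exact KfLoc_W_le_one _ _ fun l' => OneStep_re_le hu hz _
  have hB2 : Bd (fun (x : V) (ρ l : List V) =>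
      chi r w x ρ l * (u * ((1 + z) / 2) * z ^ sl x ρ l).re) := by
    refine ⟨1, fun x ρ l => ?_⟩
    rw [abs_mul, abs_of_nonneg (hc0 x ρ l)]
    refine mul_le_one₀ (hc1 x ρ l) (abs_nonneg _) ?_
    refine (Complex.abs_re_le_norm _).trans ?_
    rw [norm_mul, norm_mul, norm_pow, hu, hz, one_pow, one_mul, mul_one, norm_div]
    have : ‖(1 : ℂ) + z‖ ≤ 2 := by
      refine (norm_add_le _ _).trans ?_
      rw [norm_one, hz]; norm_num
    rw [Complex.norm_ofNat]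
    linarith
  have hB3 : Bd (fun x ρ l => chi r w x ρ l *
      W K 1 (lst x l) (fun l' => Pool.Agent.helper20.HP.ind (OneStep_bad z x ρ l l'))) := KfLoc_Bd
    (fun x ρ l => mul_nonneg (hc0 _ _ _) (Pool.Agent.helper20.HP.W_nonneg K _ _ fun l' _ =>
      Pool.Agent.helper20.HP.ind_nonneg _))
    (fun x ρ l => mul_le_one₀ (hc1 _ _ _) (Pool.Agent.helper20.HP.W_nonneg K _ _ fun l' _ =>
      Pool.Agent.helper20.HP.ind_nonneg _)
      (KfLoc_W_le_one _ _ fun l' => Pool.Agent.helper20.HP.ind_le_one _))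
  have hB4 : Bd (fun x ρ l => 2 * (chi r w x ρ l *
      W K 1 (lst x l) (fun l' => Pool.Agent.helper20.HP.ind (OneStep_bad z x ρ l l')))) := by
    obtain ⟨C, hC⟩ := hB3
    refine ⟨2 * C, fun x ρ l => ?_⟩
    rw [abs_mul, abs_two]
    exact mul_le_mul_of_nonneg_left (hC x ρ l) (by norm_num)
  have hB5 : Bd (fun x ρ l => chi r w x ρ l * (u * ((1 + z) / 2) * z ^ sl x ρ l).re +
      2 * (chi r w x ρ l *
      W K 1 (lst x l) (fun l' => Pool.Agent.helper20.HP.ind (OneStep_bad z x ρ l l')))) := by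
    obtain ⟨C₁, hC₁⟩ := hB2
    obtain ⟨C₂, hC₂⟩ := hB4
    exact ⟨C₁ + C₂, fun x ρ l => (abs_add_le _ _).trans (add_le_add (hC₁ x ρ l) (hC₂ x ρ l))⟩
  have hcmp : Kf K Γ Rp (fun x ρ l => chi r w x ρ l *
      W K 1 (lst x l) (fun l' => (u * z ^ sl x ρ (l ++ l')).re)) ≤
      Kf K Γ Rp (fun x ρ l => chi r w x ρ l * (u * ((1 + z) / 2) * z ^ sl x ρ l).re) +
      2 * Kf K Γ Rp (fun x ρ l => chi r w x ρ l *
        W K 1 (lst x l) (fun l' => Pool.Agent.helper20.HP.ind (OneStep_bad z x ρ l l'))) := by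
    rw [← Kf_mul_left, ← Kf_add K hΓ hB2 hB4]
    refine Kf_mono K hΓ hB1 hB5 fun x ρ l _ _ _ _ => ?_
    have hpt := (abs_le.mp (OneStep_pt hhalf hz hu x ρ l)).2
    have := mul_le_mul_of_nonneg_left hpt (hc0 x ρ l)
    linarith
  have hme2 := (abs_le.mp hme).2
  rw [Nat.cast_one, one_mul] at hme2
  have hCZ : 0 ≤ CJ J θ := CJ_nonneg J θ
  have hwC : 0 ≤ (w : ℝ) * CJ J θ := by positivity
  have hh : (1 : ℝ) ≤ h := by exact_mod_cast hh1
  have hwh : (w : ℝ) * CJ J θ ≤ w * CJ J θ * h := le_mul_of_one_le_right hwC hh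
  linarith

end Pool.Agent.UQ.Sk
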