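import Pool.Agent.UQ.EQfin
import Pool.Agent.UQ.Sk.OneStep
import Pool.Agent.UQ.Sk.LB2

/-!
# EQ for skeletons (functional form, part C): no oscillation of the profile at rational frequencies

`EQSkel`, `eq_skel : EQSkel`: the skeleton `(Γ, Rp)` has width at most `J ≤ n^(a/100)`, at most
`n^(1/2 + a/100)` vertices and a profile bounded by `Kb L` up to the level `A L + 2 w`.
-/

open Finset Filter
open Pool.Agent.helper20.HP hiding Phi PhiN PhiN_le_Phi PhiN_nonneg PhiN_tendsto Phi_nonneg kac km kmT kmT_abs_le kmT_add kmT_congr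
  kmT_mono kmT_mul_left kmT_nonneg kmT_split kmT_sum km_add km_mono km_mono_N km_mul_left km_nonneg
  km_split km_sum phi_bound short_words summable_kmT LH_mass
open Pool.Agent.helper57.HPT

namespace Pool.Agent.UQ.Sk

/-- the oscillating sum -/
noncomputable def Js {V : Type} [Fintype V] [DecidableEq V] (K : HW V) (Γ : List V)
    (Rp : V → List V) (z : ℂ) (r w : ℕ) : ℂ :=
  ∑ y ∈ range w, z ^ (r + y) * ((Phi K Γ Rp (r + y) : ℝ) : ℂ)

/-- admissible skeletons at scale `n` -/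
def Adm {V : Type} [Fintype V] [DecidableEq V] (K : HW V) (a A Kb : ℝ) (Γ : List V)
    (Rp : V → List V) (J : ℕ) : Prop :=
  Ok Γ Rp J ∧ (J : ℝ) ≤ (Fintype.card V : ℝ) ^ (a / 100) ∧
    (Γ.length : ℝ) ≤ (Fintype.card V : ℝ) ^ (1 / 2 + a / 100) ∧
    ∀ y : ℕ, (y : ℝ) ≤ A * Nat.sqrt (Fintype.card V) + 2 * wd (Fintype.card V) a →
      Phi K Γ Rp y ≤ Kb * Nat.sqrt (Fintype.card V)

/-- no oscillation of the profile of a skeleton at rational frequencies -/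
def EQSkel : Prop := ∀ (S : Setup) (K : ∀ k, HW (S.V k)), IsKer S K →
  ∀ (q : ℕ) (z : ℂ), z ^ q = 1 → z ≠ 1 → 1 ≤ q → ∀ A Kb ε : ℝ, 0 < ε → ∀ᶠ k in atTop,
  ∀ (Γ : List (S.V k)) (Rp : S.V k → List (S.V k)) (J : ℕ), Adm (K k) S.a A Kb Γ Rp J →
  ∀ r : ℕ, (r : ℝ) ≤ A * Nat.sqrt (Fintype.card (S.V k)) →
    ‖Js (K k) Γ Rp z r (wd (Fintype.card (S.V k)) S.a)‖
      ≤ ε * (wd (Fintype.card (S.V k)) S.a * Nat.sqrt (Fintype.card (S.V k)))

theorem asymS (S : Setup) (H₀ : ℕ) {η : ℝ} (hη : 0 < η) :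
    ∀ᶠ k in atTop, (Fintype.card (S.V k) : ℝ) ^ (S.a / 100) *
        ((tmix (S.G k) + 1 + H₀ : ℕ) : ℝ) ≤ η * wd (Fintype.card (S.V k)) S.a ∧
      (Fintype.card (S.V k) : ℝ) ^ (S.a / 100) * (Fintype.card (S.V k) : ℝ) ^ (1 / 2 + S.a / 100) ≤
        η * (wd (Fintype.card (S.V k)) S.a * Nat.sqrt (Fintype.card (S.V k))) := by
  have ha0 : 0 < S.a := lt_min S.α_pos (by norm_num)
  have ha1 : S.a ≤ 1 / 4 := min_le_right _ _
  have hn : Tendsto (fun k => ((Fintype.card (S.V k) : ℕ) : ℝ)) atTop atTop :=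
    tendsto_natCast_atTop_atTop.comp S.card
  have F1 := hn.eventually (Asym_rpow (p := S.a / 100 + (1 / 2 - S.a)) (q := 1 / 2 - S.a / 8)
    (by linarith) (by linarith) (c := η / 2) (by positivity) 0)
  have F2 := hn.eventually (Asym_rpow (p := S.a / 100) (q := 1 / 2 - S.a / 8)
    (by linarith) (by linarith) (c := η / (2 * ((H₀ : ℝ) + 1))) (by positivity) 0)
  have F3 := hn.eventually (Asym_rpow (p := S.a / 100 + (1 / 2 + S.a / 100)) (q := 1 - S.a / 8)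
    (by linarith) (by linarith) (c := η / 4) (by positivity) 0)
  have F4 := hn.eventually (Asym_rpow (p := 0) (q := 1 / 2 - S.a / 8) (by linarith)
    (by linarith) (c := 1 / 2) (by norm_num) 0)
  have F5 := tmix_small S 1 one_pos
  have F7 := hn.eventually (Asym_rpow (p := 0) (q := 1 / 2) (by norm_num)
    (by norm_num) (c := 1 / 2) (by norm_num) 0)
  filter_upwards [F1, F2, F3, F4, F5, F7, hn.eventually_gt_atTop 0] with k f1 f2 f3 f4 f5 f7 hn0
  set n : ℕ := Fintype.card (S.V k) with hndef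
  have hw1 : (n : ℝ) ^ (1 / 2 - S.a / 8) - 1 ≤ (wd n S.a : ℝ) := by
    unfold wd
    have := Nat.lt_floor_add_one ((n : ℝ) ^ (1 / 2 - S.a / 8))
    linarith
  have hs : (n : ℝ) ^ (1 / 2 : ℝ) - 1 ≤ (Nat.sqrt n : ℝ) := by
    rw [← Real.sqrt_eq_rpow]
    have := Real.real_sqrt_le_nat_sqrt_succ (a := n)
    linarith
  have f5' : ((tmix (S.G k) + 1 : ℕ) : ℝ) ≤ (n : ℝ) ^ (1 / 2 - S.a) := by
    have := f5
    rw [one_mul] at this
    exact this
  have hsum : ((tmix (S.G k) + 1 + H₀ : ℕ) : ℝ) ≤ (n : ℝ) ^ (1 / 2 - S.a) + H₀ := by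
    push_cast at f5' ⊢
    linarith
  have hp0 : 0 < (n : ℝ) ^ (S.a / 100) := Real.rpow_pos_of_pos hn0 _
  rw [Real.rpow_zero] at f4 f7
  constructor
  · have e1 : (n : ℝ) ^ (S.a / 100) * ((tmix (S.G k) + 1 + H₀ : ℕ) : ℝ) ≤
        (n : ℝ) ^ (S.a / 100 + (1 / 2 - S.a)) + (n : ℝ) ^ (S.a / 100) * H₀ := by
      rw [Real.rpow_add hn0, ← mul_add]
      exact mul_le_mul_of_nonneg_left hsum hp0.le
    have e2 : (n : ℝ) ^ (S.a / 100) * H₀ ≤ η / 2 * ((n : ℝ) ^ (1 / 2 - S.a / 8) - 1) := by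
      have h1 : (n : ℝ) ^ (S.a / 100) * H₀ ≤ (n : ℝ) ^ (S.a / 100) * ((H₀ : ℝ) + 1) :=
        mul_le_mul_of_nonneg_left (by linarith) hp0.le
      have h2 : (n : ℝ) ^ (S.a / 100) * ((H₀ : ℝ) + 1) ≤
          η / (2 * ((H₀ : ℝ) + 1)) * ((n : ℝ) ^ (1 / 2 - S.a / 8) - 1) * ((H₀ : ℝ) + 1) := by
        apply mul_le_mul_of_nonneg_right _ (by positivity)
        linarith
      have h3 : η / (2 * ((H₀ : ℝ) + 1)) * ((n : ℝ) ^ (1 / 2 - S.a / 8) - 1) * ((H₀ : ℝ) + 1) =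
          η / 2 * ((n : ℝ) ^ (1 / 2 - S.a / 8) - 1) := by
        have : (H₀ : ℝ) + 1 ≠ 0 := by positivity
        field_simp
      linarith
    have e3 := mul_le_mul_of_nonneg_left hw1 hη.le
    linarith
  · have e1 : (n : ℝ) ^ (S.a / 100) * (n : ℝ) ^ (1 / 2 + S.a / 100) ≤ η / 4 * (n : ℝ) ^ (1 - S.a / 8) := by
      rw [← Real.rpow_add hn0]
      have : 0 < η / 4 := by positivity
      linarith
    have e2 : (n : ℝ) ^ (1 / 2 - S.a / 8) / 2 ≤ (wd n S.a : ℝ) := by linarith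
    have e3 : (n : ℝ) ^ (1 / 2 : ℝ) / 2 ≤ (Nat.sqrt n : ℝ) := by linarith
    have e4 : (n : ℝ) ^ (1 - S.a / 8) = (n : ℝ) ^ (1 / 2 - S.a / 8) * (n : ℝ) ^ (1 / 2 : ℝ) := by
      rw [← Real.rpow_add hn0]
      congr 1
      ring
    have e5 : (n : ℝ) ^ (1 / 2 - S.a / 8) / 2 * ((n : ℝ) ^ (1 / 2 : ℝ) / 2) ≤
        (wd n S.a : ℝ) * (Nat.sqrt n : ℝ) :=
      mul_le_mul e2 e3 (by positivity) (by positivity)
    have e6 := mul_le_mul_of_nonneg_left e5 hη.le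
    rw [e4] at e1
    linarith

theorem contraS (S : Setup) (K : ∀ k, HW (S.V k)) (hK : IsKer S K) (z : ℂ) (A Kb ε : ℝ) (hε : 0 < ε)
    (𝒰 : Ultrafilter ℕ) (h𝒰 : (𝒰 : Filter ℕ) ≤ atTop)
    (hbad : ∀ᶠ k in (𝒰 : Filter ℕ), ∃ (Γ : List (S.V k)) (Rp : S.V k → List (S.V k)) (J : ℕ),
      Adm (K k) S.a A Kb Γ Rp J ∧ ∃ r : ℕ,
      (r : ℝ) ≤ A * Nat.sqrt (Fintype.card (S.V k)) ∧
      ε * (wd (Fintype.card (S.V k)) S.a * Nat.sqrt (Fintype.card (S.V k))) <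
        ‖Js (K k) Γ Rp z r (wd (Fintype.card (S.V k)) S.a)‖)
    {c₀ : ℝ} (hc₀ : 0 < c₀)
    (H : ∀ δ : ℝ, 0 < δ → ∃ C₀ : ℝ, 0 ≤ C₀ ∧ ∃ H₀ : ℕ, ∀ᶠ k in (𝒰 : Filter ℕ), ∀ h, H₀ ≤ h →
      Par (K k) (max S.θ 1) h → ∀ (Γ : List (S.V k)) (Rp : S.V k → List (S.V k)) (J : ℕ),
      Ok Γ Rp J → ∀ (r w m : ℕ) (P : ℝ), (∀ y ≤ m, Phi (K k) Γ Rp y ≤ P) → r + w + 8 * h ≤ m →
      c₀ * ‖Js (K k) Γ Rp z r w‖ ≤
        δ * ((w + 8 * h) * P)
        + C₀ * ((J : ℝ) * (w * (h : ℝ) + h * P + Γ.length))) : False := by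
  set Cp : ℝ := |Kb| + 1 with hCp
  have hCp0 : 0 < Cp := by positivity
  obtain ⟨C₀, hC₀, H₀, hH⟩ := H (c₀ * ε / (8 * Cp)) (by positivity)
  set Q : ℝ := C₀ * (2 + Cp) + 1 with hQ
  have hQ0 : 0 < Q := by positivity
  set η : ℝ := min (1 / 8) (c₀ * ε / (4 * Q)) with hη
  have hη0 : 0 < η := lt_min (by norm_num) (by positivity)
  have hη8 : η ≤ 1 / 8 := min_le_left _ _
  have hηQ : η * Q ≤ c₀ * ε / 4 := by
    have : η ≤ c₀ * ε / (4 * Q) := min_le_right _ _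
    calc η * Q ≤ c₀ * ε / (4 * Q) * Q := mul_le_mul_of_nonneg_right this hQ0.le
      _ = c₀ * ε / 4 := by field_simp
  have has := ((asym S K hK H₀ hη0).and (asymS S H₀ hη0)).filter_mono h𝒰
  obtain ⟨k, ⟨⟨hPar, hh, hw, hw1⟩, hJh, hJG⟩, hHk, Γ, Rp, J, ⟨hΓ, hJ, hΓl, hprof⟩, r, hr, hlt⟩ :=
    (has.and (hH.and hbad)).exists
  set n := Fintype.card (S.V k) with hn
  set L : ℝ := (Nat.sqrt n : ℝ) with hL
  set w := wd n S.a with hwdef
  set h := tmix (S.G k) + 1 + H₀ with hhdef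
  have hL0 : 0 ≤ L := Nat.cast_nonneg _
  have hw0 : 0 < (w : ℝ) := by
    by_contra hcon
    have : (w : ℝ) ≤ 0 := not_lt.1 hcon
    nlinarith
  have hLpos : 0 < L := by
    by_contra hcon
    have : L ≤ 0 := not_lt.1 hcon
    nlinarith
  have hh0 : (0 : ℝ) ≤ (h : ℝ) := Nat.cast_nonneg _
  have hJ0 : (0 : ℝ) ≤ (J : ℝ) := Nat.cast_nonneg _
  have hwL : (w : ℝ) ≤ L / 8 := by nlinarith
  have hhw : (h : ℝ) ≤ w / 8 := by nlinarith
  have hPm : ∀ y ≤ r + w + 8 * h, Phi (K k) Γ Rp y ≤ Cp * L := by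
    intro y hy
    have h1 : (y : ℝ) ≤ (r : ℝ) + w + 8 * h := by exact_mod_cast hy
    refine (hprof y (by linarith)).trans ?_
    have : Kb ≤ Cp := by
      have := le_abs_self Kb
      rw [hCp]; linarith
    exact mul_le_mul_of_nonneg_right this hL0
  have hmain := hHk h (by omega) hPar Γ Rp J hΓ r w (r + w + 8 * h) (Cp * L) hPm le_rfl
  have hwL0 : 0 < (w : ℝ) * L := by positivity
  have hJh' : (J : ℝ) * h ≤ η * w := (mul_le_mul_of_nonneg_right hJ hh0).trans hJh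
  have hJG' : (J : ℝ) * Γ.length ≤ η * (w * L) :=
    (mul_le_mul hJ hΓl (Nat.cast_nonneg _) (by positivity)).trans hJG
  -- first term
  have t1 : c₀ * ε / (8 * Cp) * ((w + 8 * h) * (Cp * L)) ≤ c₀ * ε / 4 * (w * L) := by
    have e1 : ((w : ℝ) + 8 * h) * (Cp * L) ≤ (2 * w) * (Cp * L) := by
      apply mul_le_mul_of_nonneg_right _ (by positivity)
      linarith
    calc c₀ * ε / (8 * Cp) * ((w + 8 * h) * (Cp * L))
        ≤ c₀ * ε / (8 * Cp) * ((2 * w) * (Cp * L)) := mul_le_mul_of_nonneg_left e1 (by positivity)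
      _ = c₀ * ε / 4 * (w * L) := by field_simp; ring
  have t2 : C₀ * ((J : ℝ) * (w * (h : ℝ) + h * (Cp * L) + Γ.length)) ≤ c₀ * ε / 4 * (w * L) := by
    have e1 : (J : ℝ) * (w * h) ≤ η * (w * L) := by
      have h1 : (J : ℝ) * h ≤ η * L := hJh'.trans (mul_le_mul_of_nonneg_left (by linarith) hη0.le)
      nlinarith
    have e2 : (J : ℝ) * (h * (Cp * L)) ≤ η * Cp * (w * L) := by
      have : ((J : ℝ) * h) * (Cp * L) ≤ (η * w) * (Cp * L) :=
        mul_le_mul_of_nonneg_right hJh' (by positivity)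
      linarith
    have e4 : (J : ℝ) * (w * (h : ℝ) + h * (Cp * L) + Γ.length) ≤ η * (2 + Cp) * (w * L) := by
      linarith
    calc C₀ * ((J : ℝ) * (w * (h : ℝ) + h * (Cp * L) + Γ.length))
        ≤ C₀ * (η * (2 + Cp) * (w * L)) := mul_le_mul_of_nonneg_left e4 hC₀
      _ = (η * (C₀ * (2 + Cp))) * (w * L) := by ring
      _ ≤ (η * Q) * (w * L) := by
          apply mul_le_mul_of_nonneg_right _ hwL0.le
          apply mul_le_mul_of_nonneg_left _ hη0.le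
          rw [hQ]; linarith
      _ ≤ c₀ * ε / 4 * (w * L) := mul_le_mul_of_nonneg_right hηQ hwL0.le
  have t3 : c₀ * (ε * (w * L)) < c₀ * ‖Js (K k) Γ Rp z r w‖ := mul_lt_mul_of_pos_left hlt hc₀
  have t4 : 0 < c₀ * ε * (w * L) := by positivity
  nlinarith

/-- error terms of the three cases in a common form -/
theorem caseOne {V : Type} [Fintype V] [DecidableEq V] {K : HW V} {θ : ℝ} {h : ℕ} (hP : Par K θ h)
    {Γ : List V} {Rp : V → List V} {J : ℕ} (hΓ : Ok Γ Rp J) (hhalf : ∀ x, K.p x x = 1 / 2) {z : ℂ} (hz : ‖z‖ = 1)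
    {r w m : ℕ} {P : ℝ} (hPm : ∀ y ≤ m, Phi K Γ Rp y ≤ P) (hm : r + w + 8 * h ≤ m) (ψ : V → List V → ℝ) (h0 : ∀ v l, 0 ≤ ψ v l)
    (h1 : ∀ v l, ψ v l ≤ 1) {δ : ℝ} (hδ : ∀ v, W K (2 * h + 1) v (ψ v) ≤ δ / 2)
    (hbad : ∀ x ρ l l' y, (x :: ρ).Nodup → (∀ u ∈ x :: ρ, u ∈ Γ) → (∀ u ∈ l ++ l' ++ [y], u ∉ Γ) →
      Wk K x (l ++ l' ++ [y]) → l'.length = 2 * h → y ≠ lst x (l ++ l') →
      z ^ (stp (run (x :: ρ) (l ++ l')) y).length ≠ z * z ^ sl x ρ (l ++ l') →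
      ¬ LH (2 * h) x ρ (l ++ l') y → ψ (lst x l) (l' ++ [y]) = 1) :
    ‖(1 - z) / 2‖ * ‖Js K Γ Rp z r w‖ ≤ δ * ((w + 8 * h) * P)
      + (90 * CZ θ + 16) * ((J : ℝ) * (w * (h : ℝ) + h * P + Γ.length)) := by
  have := one_step hP hΓ hhalf hz hPm hm ψ h0 h1 hδ hbad
  have hCZ := CJ_nonneg J θ
  have hh : (1 : ℝ) ≤ h := by exact_mod_cast hP.h_pos
  have hPB0 : 0 ≤ P := P_nonneg hPm
  have hw : (0 : ℝ) ≤ w := Nat.cast_nonneg _
  have hG : (0 : ℝ) ≤ Γ.length := Nat.cast_nonneg _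
  have e1 : 30 * ((w : ℝ) * CJ J θ * (2 * (h : ℝ) + 1)) ≤ 90 * CJ J θ * (w * h) := by
    have : 0 ≤ (w : ℝ) * CJ J θ := by positivity
    nlinarith
  have e2 : 0 ≤ 90 * CJ J θ * ((h : ℝ) * P) := by positivity
  have e3 : 0 ≤ 90 * CJ J θ * (Γ.length : ℝ) := by positivity
  have e4 : 0 ≤ (w : ℝ) * h := by positivity
  have e5 : 0 ≤ (h : ℝ) * P := by positivity
  have hJ : (1 : ℝ) ≤ J := by exact_mod_cast hΓ.pos
  have hconv : 90 * CJ J θ * (w * (h : ℝ) + h * P + Γ.length) =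
      90 * CZ θ * ((J : ℝ) * (w * (h : ℝ) + h * P + Γ.length)) := by unfold CJ; ring
  have hT : 0 ≤ (w : ℝ) * (h : ℝ) + h * P + Γ.length := by positivity
  have hT' : (w : ℝ) * (h : ℝ) + h * P + Γ.length ≤ (J : ℝ) * (w * (h : ℝ) + h * P + Γ.length) :=
    le_mul_of_one_le_left hT hJ
  unfold Js
  nlinarith

theorem caseThree {V : Type} [Fintype V] [DecidableEq V] {K : HW V} {θ : ℝ} {h : ℕ}
    (hP : Par K θ h) {Γ : List V} {Rp : V → List V} {J : ℕ} (hΓ : Ok Γ Rp J) {z : ℂ} (hz : ‖z‖ = 1) {N R : ℕ} (hN : 0 < N)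
    (hh : N + R + 1 ≤ h) {r w m : ℕ} {P : ℝ} (hPm : ∀ y ≤ m, Phi K Γ Rp y ≤ P) (hm : r + w + 8 * h ≤ m) {δ : ℝ}
    (hmR : mR K z N R ≤ δ / 3) (hbad : bad K (2 * h) R N ≤ δ / 4) :
    1 * ‖Js K Γ Rp z r w‖ ≤ δ * ((w + 8 * h) * P)
      + (90 * CZ θ + 16 + 3 * N) * ((J : ℝ) * (w * (h : ℝ) + h * P + Γ.length)) := by
  have a1 := LB1 hP hΓ hz hN (by omega : N ≤ 2 * h) (r := r) (w := w) (m := m) hPm (by omega)
  have a2 := LB2 hP hΓ hz hN (by omega : N ≤ 2 * h) (by omega : R ≤ 2 * h) hPm hm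
  have hCZ := CJ_nonneg J θ
  have hh1 : (1 : ℝ) ≤ h := by exact_mod_cast hP.h_pos
  have hPB0 : 0 ≤ P := P_nonneg hPm
  have hw : (0 : ℝ) ≤ w := Nat.cast_nonneg _
  have hG : (0 : ℝ) ≤ Γ.length := Nat.cast_nonneg _
  have hN0 : (0 : ℝ) ≤ N := Nat.cast_nonneg _
  have hR0 : (0 : ℝ) ≤ R := Nat.cast_nonneg _
  have hhc : (N : ℝ) + R + 1 ≤ h := by exact_mod_cast hh
  have hwC : 0 ≤ (w : ℝ) * CJ J θ := by positivity
  have e0 : (3 / 2 * mR K z N R + 2 * bad K (2 * h) R N) * ((w + 8 * h) * P)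
      ≤ δ * ((w + 8 * h) * P) := by
    apply mul_le_mul_of_nonneg_right _ (by positivity)
    linarith
  have e1 : 5 * ((w : ℝ) * CJ J θ * ((N : ℝ) + 1)) + 25 * (w * CJ J θ * (2 * (h : ℝ) + R + N + 1))
      ≤ 90 * CJ J θ * (w * h) := by
    have b1 : (w : ℝ) * CJ J θ * ((N : ℝ) + 1) ≤ w * CJ J θ * h :=
      mul_le_mul_of_nonneg_left (by linarith) hwC
    have b2 : (w : ℝ) * CJ J θ * (2 * (h : ℝ) + R + N + 1) ≤ w * CJ J θ * (3 * h) :=
      mul_le_mul_of_nonneg_left (by linarith) hwC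
    nlinarith
  have e2 : 0 ≤ 90 * CJ J θ * ((h : ℝ) * P) := by positivity
  have e3 : 0 ≤ 90 * CJ J θ * (Γ.length : ℝ) := by positivity
  have e4 : 0 ≤ (w : ℝ) * h := by positivity
  have e5 : 0 ≤ (h : ℝ) * P := by positivity
  have e6 : 0 ≤ (N : ℝ) * (w * h) := by positivity
  have e7 : 0 ≤ (N : ℝ) * ((h : ℝ) * P) := by positivity
  have hJ : (1 : ℝ) ≤ J := by exact_mod_cast hΓ.pos
  have hconv : 90 * CJ J θ * (w * (h : ℝ) + h * P + Γ.length) =
      90 * CZ θ * ((J : ℝ) * (w * (h : ℝ) + h * P + Γ.length)) := by unfold CJ; ring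
  have hT : 0 ≤ (w : ℝ) * (h : ℝ) + h * P + Γ.length := by positivity
  have hT' : (w : ℝ) * (h : ℝ) + h * P + Γ.length ≤ (J : ℝ) * (w * (h : ℝ) + h * P + Γ.length) :=
    le_mul_of_one_le_left hT hJ
  have hT'' : (N : ℝ) * ((w : ℝ) * (h : ℝ) + h * P + Γ.length) ≤
      N * ((J : ℝ) * (w * (h : ℝ) + h * P + Γ.length)) := mul_le_mul_of_nonneg_left hT' hN0
  have e8 : 0 ≤ (N : ℝ) * (Γ.length : ℝ) := by positivity
  unfold Js
  linarith

theorem eq_skel : EQSkel := by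
  intro S K hK q z hzq hz1 hq A Kb ε hε
  by_contra hcon
  have hz : ‖z‖ = 1 := Complex.norm_eq_one_of_pow_eq_one hzq (by omega)
  rw [Filter.not_eventually, Filter.frequently_iff_neBot] at hcon
  set 𝒰 : Ultrafilter ℕ := @Ultrafilter.of _ _ hcon with h𝒰def
  have hle : (𝒰 : Filter ℕ) ≤ atTop ⊓ 𝓟 {x | ¬ ∀ (Γ : List (S.V x)) (Rp : S.V x → List (S.V x))
      (J : ℕ), Adm (K x) S.a A Kb Γ Rp J →
      ∀ r : ℕ, (r : ℝ) ≤ A * Nat.sqrt (Fintype.card (S.V x)) →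
      ‖Js (K x) Γ Rp z r (wd (Fintype.card (S.V x)) S.a)‖
      ≤ ε * (wd (Fintype.card (S.V x)) S.a * Nat.sqrt (Fintype.card (S.V x)))} :=
    @Ultrafilter.of_le _ _ hcon
  have h𝒰 : (𝒰 : Filter ℕ) ≤ atTop := hle.trans inf_le_left
  have hbad : ∀ᶠ k in (𝒰 : Filter ℕ), ∃ (Γ : List (S.V k)) (Rp : S.V k → List (S.V k)) (J : ℕ),
      Adm (K k) S.a A Kb Γ Rp J ∧ ∃ r : ℕ,
      (r : ℝ) ≤ A * Nat.sqrt (Fintype.card (S.V k)) ∧
      ε * (wd (Fintype.card (S.V k)) S.a * Nat.sqrt (Fintype.card (S.V k))) <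
        ‖Js (K k) Γ Rp z r (wd (Fintype.card (S.V k)) S.a)‖ := by
    have h1 : ∀ᶠ k in (𝒰 : Filter ℕ), ¬ ∀ (Γ : List (S.V k)) (Rp : S.V k → List (S.V k))
      (J : ℕ), Adm (K k) S.a A Kb Γ Rp J →
      ∀ r : ℕ, (r : ℝ) ≤ A * Nat.sqrt (Fintype.card (S.V k)) →
      ‖Js (K k) Γ Rp z r (wd (Fintype.card (S.V k)) S.a)‖
      ≤ ε * (wd (Fintype.card (S.V k)) S.a * Nat.sqrt (Fintype.card (S.V k))) :=
      Filter.le_principal_iff.1 (hle.trans inf_le_right)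
    filter_upwards [h1] with k hk
    push Not at hk
    obtain ⟨Γ, Rp, J, h2, r, h4, h5⟩ := hk
    exact ⟨Γ, Rp, J, h2, r, h4, h5⟩
  set θ := max S.θ 1 with hθdef
  have hθ : 1 ≤ θ := le_max_right _ _
  have hθ0 : 0 < θ := by linarith
  -- labelled graphs
  have hgr : ∀ k, ∃ D : ℕ, ∃ nb : S.V k → Fin D → S.V k, 2 ≤ Fintype.card (S.V k) →
      0 < D ∧ Reg nb ∧ Tra nb ∧ KerOf (K k) nb := by
    intro k
    by_cases h2 : 2 ≤ Fintype.card (S.V k)
    · obtain ⟨D, hD, nb, h3⟩ := gr_label (S.G k) (S.conn k) (S.trans k) h2 (K k) (hK k)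
      exact ⟨D, nb, fun _ => ⟨hD, h3⟩⟩
    · exact ⟨1, fun v _ => v, fun h => absurd h h2⟩
  choose D nb hnb using hgr
  have hcard : ∀ᶠ k in (𝒰 : Filter ℕ), 2 ≤ Fintype.card (S.V k) :=
    (S.card.eventually (eventually_ge_atTop 2)).filter_mono h𝒰
  have hc1 : 0 < ‖(1 - z) / 2‖ := by
    rw [norm_pos_iff]
    intro h
    apply hz1
    have : 1 - z = 0 := by
      have := congrArg (fun t => t * 2) h
      simpa using this
    exact (sub_eq_zero.1 this).symm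
  by_cases hbig : ∀ M, ∀ᶠ k in (𝒰 : Filter ℕ), M ≤ D k
  · -- large degree
    refine contraS S K hK z A Kb ε hε 𝒰 h𝒰 hbad hc1 ?_
    intro δ hδ
    obtain ⟨J, hJ⟩ := exists_nat_gt (θ / (δ / 4))
    obtain ⟨M, hM⟩ := exists_nat_gt ((J : ℝ) / (δ / 4))
    refine ⟨90 * CZ θ + 16, by have := CZ_nonneg θ; positivity, 0, ?_⟩
    filter_upwards [hbig (M + 1), hcard] with k hMk h2 h _ hPar Γ Rp J' hΓ r w m P hPm hm
    obtain ⟨hD, hr, _, hk⟩ := hnb k h2
    refine caseOne hPar hΓ (ker_half hr hD hk) hz hPm hm psiI (fun v l => ind_nonneg _)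
      (fun v l => ind_le_one _) ?_ (badI z)
    intro v
    refine (psiI_le hPar (ker_half hr hD hk) hD (ker_deg hr hD hk) J v).trans ?_
    have hD' : ((M : ℝ)) + 1 ≤ D k := by exact_mod_cast hMk
    have hM0 : (0 : ℝ) ≤ M := Nat.cast_nonneg _
    have e1 : (J : ℝ) / (2 * (D k : ℝ)) ≤ δ / 4 := by
      rw [div_lt_iff₀ (by positivity)] at hM
      rw [div_le_iff₀ (by positivity)]
      nlinarith
    have e2 : θ / ((J : ℝ) + 1) ≤ δ / 4 := by
      rw [div_lt_iff₀ (by positivity)] at hJ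
      rw [div_le_iff₀ (by positivity)]
      nlinarith
    linarith
  · -- bounded degree
    obtain ⟨M, hM⟩ := not_forall.1 hbig
    have hM' : ∀ᶠ k in (𝒰 : Filter ℕ), D k < M := by
      rw [← Ultrafilter.eventually_not] at hM
      exact hM.mono fun k hk => not_le.1 hk
    obtain ⟨d, hd⟩ := ultra_const 𝒰 D M hM'
    by_cases hcase2 : z = -1 ∧ ¬ ∃ L : ℕ, ∀ᶠ k in (𝒰 : Filter ℕ), OddCl (K k) L
    · -- locally bipartite
      obtain ⟨hzm, hno⟩ := hcase2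
      refine contraS S K hK z A Kb ε hε 𝒰 h𝒰 hbad hc1 ?_
      intro δ hδ
      obtain ⟨J, hJ⟩ := exists_nat_gt (θ / (δ / 2))
      have hJno : ∀ᶠ k in (𝒰 : Filter ℕ), ¬ OddCl (K k) J := by
        rw [Ultrafilter.eventually_not]
        intro h
        exact hno ⟨J, h⟩
      refine ⟨90 * CZ θ + 16, by have := CZ_nonneg θ; positivity, J, ?_⟩
      filter_upwards [hJno, hcard] with k hJk h2 h hh hPar Γ Rp J' hΓ r w m P hPm hm
      obtain ⟨hD, hr, _, hk⟩ := hnb k h2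
      subst hzm
      refine caseOne hPar hΓ (ker_half hr hD hk) hz hPm hm (fun _ => psiII J) (fun v l => ind_nonneg _)
        (fun v l => ind_le_one _) ?_ (badII (by omega) hJk)
      intro v
      refine (psiII_le hPar J v).trans ?_
      rw [div_lt_iff₀ (by positivity)] at hJ
      rw [div_le_iff₀ (by positivity)]
      nlinarith
    · -- lock
      have hne : ∀ k, Nonempty (S.V k) := fun k => ⟨S.o k⟩
      let nb' : ∀ k, S.V k → Fin d → S.V k := fun k =>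
        if h : D k = d then (fun v i => nb k v (Fin.cast h.symm i)) else fun v _ => v
      have hnb' : ∀ᶠ k in (𝒰 : Filter ℕ), 0 < d ∧ Reg (nb' k) ∧ Tra (nb' k) ∧ KerOf (K k) (nb' k) := by
        filter_upwards [hd, hcard] with k hk h2
        have h3 := hnb k h2
        have : nb' k = fun v i => nb k v (Fin.cast hk.symm i) := by simp only [nb', dif_pos hk]
        rw [this]
        subst hk
        exact h3
      have hcase : z ^ 2 ≠ 1 ∨ (z = -1 ∧ ∃ L : ℕ, ∀ᶠ k in (𝒰 : Filter ℕ),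
          ∃ (x : S.V k) (w : List (Fin d)), w.length ≤ L ∧ Odd w.length ∧
            endp (nb' k) x (w.map (fun i => ((true, i) : Lt d))) = x) := by
        by_cases hzz : z ^ 2 = 1
        · right
          have hzm : z = -1 := by
            have h1 : (z - 1) * (z + 1) = 0 := by
              have : (z - 1) * (z + 1) = z ^ 2 - 1 := by ring
              rw [this, hzz, sub_self]
            rcases mul_eq_zero.1 h1 with h | h
            · exact absurd (sub_eq_zero.1 h) hz1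
            · exact eq_neg_of_add_eq_zero_left h
          refine ⟨hzm, ?_⟩
          have : ∃ L : ℕ, ∀ᶠ k in (𝒰 : Filter ℕ), OddCl (K k) L := by
            by_contra hno
            exact hcase2 ⟨hzm, hno⟩
          obtain ⟨L, hL⟩ := this
          refine ⟨L, ?_⟩
          filter_upwards [hL, hnb'] with k h1 h2
          exact oddcl_word h2.2.1 h2.1 h2.2.2.2 h1
        · left; exact hzz
      have hsmb : ∀ T : ℕ, ∀ᶠ k in (𝒰 : Filter ℕ), ∀ x,
          ∑ t ∈ range T, ((t : ℝ) + 1) * (K k).pt t x x ≤ θ := by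
        intro T
        have hc : ∀ᶠ k in (𝒰 : Filter ℕ), T * T ≤ Fintype.card (S.V k) :=
          (S.card.eventually (eventually_ge_atTop (T * T))).filter_mono h𝒰
        filter_upwards [hc] with k hk x
        have hT : T ≤ Nat.sqrt (Fintype.card (S.V k)) + 1 := by
          have := Nat.le_sqrt.2 hk
          omega
        refine le_trans ?_ ((S.A1 k x).trans (le_max_left _ _))
        rw [Finset.sum_congr rfl (fun t _ => by rw [hK k t x x])]
        apply Finset.sum_le_sum_of_subset_of_nonneg (Finset.range_subset_range.2 hT)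
        intro t _ _
        rw [← hK k t x x]
        exact mul_nonneg (by positivity) (pt_nonneg (K k) t x x)
      refine contraS S K hK z A Kb ε hε 𝒰 h𝒰 hbad (c₀ := 1) one_pos ?_
      intro δ hδ
      obtain ⟨N, hN, hR⟩ := lock 𝒰 S.V K nb' (hnb'.mono fun k h => h.2.1) (hnb'.mono fun k h => h.2.2.1)
        (hnb'.mono fun k h => h.2.2.2) hθ hsmb hz hcase (show 0 < δ / 3 by positivity)
      -- cut parameters
      have hq1 : 1 - 1 / (2 * θ) < 1 := by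
        have : 0 < 1 / (2 * θ) := by positivity
        linarith
      obtain ⟨m', hm'⟩ := exists_pow_lt_of_lt_one (show (0 : ℝ) < δ / 8 by positivity) hq1
      set δ' : ℝ := min (1 / 2) (δ / (16 * ((m' : ℝ) + 1))) with hδ'
      have hδ'0 : 0 < δ' := lt_min (by norm_num) (by positivity)
      obtain ⟨r', hr', hT'⟩ := tail_ultra 𝒰
        (fun k u => ((u : ℝ) + 1) * (K k).pt u (S.o k) (S.o k))
        (fun k u => mul_nonneg (by positivity) (pt_nonneg (K k) u (S.o k) (S.o k)))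
        (fun T => (hsmb T).mono fun k h => h (S.o k)) hδ'0
      obtain ⟨S', hS'⟩ := exists_nat_gt (((2 * r' * m' + N : ℕ) : ℝ) * θ / (δ / (16 * ((m' : ℝ) + 1))))
      obtain ⟨R₁, hR₁⟩ := hR (2 * r' * m')
      refine ⟨90 * CZ θ + 16 + 3 * N, by have := CZ_nonneg θ; positivity, N + R₁ + 1 + r', ?_⟩
      filter_upwards [hR₁, hT' (4 * r'), hT' S'] with k hRk h4 h5 h hh hPar Γ Rp J' hΓ r w m P hPm hm
      obtain ⟨R, hR0, hR1, hmR⟩ := hRk
      refine caseThree hPar hΓ hz hN (by omega) hPm hm hmR ?_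
      have h16 := hPar.h_le
      have hb := bad_tail hPar hr' m' N R S' hR0 (by omega) (by omega) (S.o k)
        (h4.trans (min_le_left _ _)) h5
      refine hb.trans ?_
      have e1 : (m' : ℝ) * δ' ≤ δ / 16 := by
        have h1 : δ' ≤ δ / (16 * ((m' : ℝ) + 1)) := min_le_right _ _
        have h2 : (m' : ℝ) * δ' ≤ m' * (δ / (16 * ((m' : ℝ) + 1))) :=
          mul_le_mul_of_nonneg_left h1 (Nat.cast_nonneg m')
        have h3 : (m' : ℝ) * (δ / (16 * ((m' : ℝ) + 1))) ≤ δ / 16 := by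
          rw [mul_div_assoc', div_le_div_iff₀ (by positivity) (by positivity)]
          nlinarith [hδ, Nat.cast_nonneg (α := ℝ) m']
        linarith
      have e2 : (m' : ℝ) * (((2 * r' * m' + N : ℕ) : ℝ) * (θ / ((S' : ℝ) + 1))) ≤ δ / 16 := by
        have h0 : 0 < δ / (16 * ((m' : ℝ) + 1)) := by positivity
        rw [div_lt_iff₀ h0] at hS'
        have h1 : ((2 * r' * m' + N : ℕ) : ℝ) * (θ / ((S' : ℝ) + 1)) ≤ δ / (16 * ((m' : ℝ) + 1)) := by
          rw [← mul_div_assoc, div_le_iff₀ (by positivity)]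
          nlinarith
        have h2 := mul_le_mul_of_nonneg_left h1 (Nat.cast_nonneg m' : (0 : ℝ) ≤ m')
        have h3 : (m' : ℝ) * (δ / (16 * ((m' : ℝ) + 1))) ≤ δ / 16 := by
          rw [mul_div_assoc', div_le_div_iff₀ (by positivity) (by positivity)]
          nlinarith [hδ, Nat.cast_nonneg (α := ℝ) m']
        linarith
      rw [mul_add]
      linarith

end Pool.Agent.UQ.Sk
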