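import Pool.Agent.helper57.HPT.B7
import Pool.Agent.UQ.KfBasic
/-!
# Q1 KfBasic for skeletons : the functional `Kf f = ∑' t, kmT K Γ Rp t f` on killed words

`Γ` nodup. For bounded `f` the series converges absolutely (`HP.summable_kmT`). `Kf_split`: split off the words of length `< s`
(`Summable.sum_add_tsum_nat_add`, `HP.kmT_split`). `Kf_le_of_PhiN` etc.: limits `N → ∞` of the estimates of helper20 for `km K Γ Rp N`
(`HasSum.tendsto_sum_nat`; `km K Γ Rp N f = ∑ t ∈ range N, kmT K Γ Rp t f`).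
`B` is a common bound for `Phi K Γ Rp y`, see `Phi_le`.
-/

open Finset Filter
open Pool.Agent.helper20.HP hiding Phi PhiN PhiN_le_Phi PhiN_nonneg PhiN_tendsto Phi_nonneg kac km kmT kmT_abs_le kmT_add kmT_congr
  kmT_mono kmT_mul_left kmT_nonneg kmT_split kmT_sum km_add km_mono km_mono_N km_mul_left km_nonneg
  km_split km_sum phi_bound short_words summable_kmT LH_mass
open Pool.Agent.helper57.HPT

namespace Pool.Agent.UQ.Sk

variable {V : Type} [Fintype V] [DecidableEq V]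

/-- sum over all killed words -/
noncomputable def Kf (K : HW V) (Γ : List V) (Rp : V → List V) (f : V → List V → List V → ℝ) : ℝ := ∑' t, kmT K Γ Rp t f

variable (K : HW V) {Γ : List V} {Rp : V → List V}

theorem KfBasic_summable {J : ℕ} (hΓ : Ok Γ Rp J) {f : V → List V → List V → ℝ} (hf : Bd f) :
    Summable (fun t => kmT K Γ Rp t f) := by
  obtain ⟨C, hC⟩ := hf
  exact summable_kmT K Γ Rp hΓ f C hC

theorem Kf_add {J : ℕ} (hΓ : Ok Γ Rp J) {f g : V → List V → List V → ℝ} (hf : Bd f) (hg : Bd g) :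
    Kf K Γ Rp (fun x ρ l => f x ρ l + g x ρ l) = Kf K Γ Rp f + Kf K Γ Rp g := by
  unfold Kf
  simp only [kmT_add]
  exact (KfBasic_summable K hΓ hf).tsum_add (KfBasic_summable K hΓ hg)

theorem Kf_mul_left (c : ℝ) (f : V → List V → List V → ℝ) :
    Kf K Γ Rp (fun x ρ l => c * f x ρ l) = c * Kf K Γ Rp f := by
  unfold Kf
  simp only [kmT_mul_left]
  exact tsum_mul_left

theorem Kf_sub {J : ℕ} (hΓ : Ok Γ Rp J) {f g : V → List V → List V → ℝ} (hf : Bd f) (hg : Bd g) :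
    Kf K Γ Rp (fun x ρ l => f x ρ l - g x ρ l) = Kf K Γ Rp f - Kf K Γ Rp g := by
  have h1 := Kf_add K hΓ hf (KfBasic_Bd_mul (-1) hg)
  rw [Kf_mul_left] at h1
  have h2 : (fun (x : V) (ρ l : List V) => f x ρ l + -1 * g x ρ l)
      = fun x ρ l => f x ρ l - g x ρ l := by
    funext x ρ l; ring
  rw [h2] at h1
  rw [h1]; ring

theorem Kf_sum {ι : Type} {J : ℕ} (hΓ : Ok Γ Rp J) (s : Finset ι) {f : ι → V → List V → List V → ℝ}
    (hf : ∀ i ∈ s, Bd (f i)) : Kf K Γ Rp (fun x ρ l => ∑ i ∈ s, f i x ρ l) = ∑ i ∈ s, Kf K Γ Rp (f i) := by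
  unfold Kf
  simp only [kmT_sum]
  exact Summable.tsum_finsetSum fun i hi => KfBasic_summable K hΓ (hf i hi)

omit [Fintype V] [DecidableEq V] in
theorem KfBasic_nodup {J : ℕ} (hΓ : Ok Γ Rp J) (i : Fin Γ.length) :
    (Γ.get i :: Rp (Γ.get i)).Nodup ∧ ∀ u ∈ Γ.get i :: Rp (Γ.get i), u ∈ Γ := by
  have h1 := hΓ.path (Γ.get i) (List.get_mem Γ i)
  refine ⟨h1.1, fun u hu => ?_⟩
  rcases List.mem_cons.1 hu with rfl | hu
  · exact List.get_mem Γ i
  · exact h1.2 u hu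

/-- monotonicity; only starts `x = Γ_i`, `ρ` = part of `Γ` below `x`, and possible walks avoiding `Γ` matter -/
theorem Kf_mono {J : ℕ} (hΓ : Ok Γ Rp J) {f g : V → List V → List V → ℝ} (hf : Bd f) (hg : Bd g)
    (h : ∀ x ρ l, (x :: ρ).Nodup → (∀ u ∈ x :: ρ, u ∈ Γ) → (∀ y ∈ l, y ∉ Γ) → Wk K x l →
      f x ρ l ≤ g x ρ l) : Kf K Γ Rp f ≤ Kf K Γ Rp g := by
  unfold Kf
  refine (KfBasic_summable K hΓ hf).tsum_le_tsum (fun t => ?_) (KfBasic_summable K hΓ hg)
  unfold kmT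
  refine Finset.sum_le_sum fun i _ => W_mono_supp K fun l _ hw => ?_
  obtain ⟨hnd, hsub⟩ := KfBasic_nodup hΓ i
  by_cases hh : ∀ y ∈ l, y ∉ Γ
  · rw [Pool.Agent.helper20.HP.ind_true hh, one_mul, one_mul]
    exact h _ _ l hnd hsub hh hw
  · rw [Pool.Agent.helper20.HP.ind_false hh, zero_mul, zero_mul]

theorem Kf_nonneg {f : V → List V → List V → ℝ} (h : ∀ x ρ l, 0 ≤ f x ρ l) : 0 ≤ Kf K Γ Rp f :=
  tsum_nonneg fun t => kmT_nonneg K Γ Rp t h

theorem Kf_abs_le {J : ℕ} (hΓ : Ok Γ Rp J) {f : V → List V → List V → ℝ} (hf : Bd f) :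
    |Kf K Γ Rp f| ≤ Kf K Γ Rp (fun x ρ l => |f x ρ l|) := by
  have hf' : Bd (fun x ρ l => |f x ρ l|) := by
    obtain ⟨C, hC⟩ := hf
    exact ⟨C, fun x ρ l => by rw [abs_abs]; exact hC x ρ l⟩
  rw [abs_le]
  constructor
  · have h1 := Kf_mono K hΓ (KfBasic_Bd_mul (-1) hf') hf
      (fun x ρ l _ _ _ _ => by linarith [neg_abs_le (f x ρ l)])
    rw [Kf_mul_left] at h1
    linarith
  · exact Kf_mono K hΓ hf hf' (fun x ρ l _ _ _ _ => le_abs_self _)

/-- appending `s` steps -/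
theorem Kf_split {J : ℕ} (hΓ : Ok Γ Rp J) {f : V → List V → List V → ℝ} (hf : Bd f) (s : ℕ) :
    Kf K Γ Rp f = km K Γ Rp s f + Kf K Γ Rp (fun x ρ l =>
      W K s (lst x l) (fun l' => av Γ l' * f x ρ (l ++ l'))) := by
  unfold Kf km
  rw [← (KfBasic_summable K hΓ hf).sum_add_tsum_nat_add s]
  congr 1
  refine tsum_congr fun t => ?_
  rw [kmT_split]
  rfl

/-- for nonnegative functions -/
theorem Kf_split_le {J : ℕ} (hΓ : Ok Γ Rp J) {f : V → List V → List V → ℝ} (hf : Bd f)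
    (h0 : ∀ x ρ l, 0 ≤ f x ρ l) (s : ℕ) :
    Kf K Γ Rp (fun x ρ l => W K s (lst x l) (fun l' => av Γ l' * f x ρ (l ++ l'))) ≤ Kf K Γ Rp f := by
  have h1 := Kf_split K hΓ hf s
  have h2 := km_nonneg K Γ Rp s h0
  linarith

/-- the killing: words whose next `s` steps hit `Γ` have mass at most `s |Γ|` -/
theorem Kf_kill {J : ℕ} (hΓ : Ok Γ Rp J) (s : ℕ) :
    Kf K Γ Rp (fun x _ l => W K s (lst x l) (fun l' => 1 - av Γ l')) ≤ s * Γ.length := by
  have hone : Bd (fun (_ : V) (_ _ : List V) => (1 : ℝ)) := ⟨1, fun _ _ _ => by simp⟩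
  have hav : Bd (fun (x : V) (_ l : List V) => W K s (lst x l) (fun l' => av Γ l' * 1)) := by
    refine ⟨1, fun x _ l => ?_⟩
    rw [abs_of_nonneg (W_nonneg K s _ fun l' _ => by
      rw [mul_one]; exact Pool.Agent.helper20.HP.ind_nonneg _)]
    refine (W_mono K s _ fun l' _ => ?_).trans (W_const K s (lst x l) 1).le
    rw [mul_one]; exact Pool.Agent.helper20.HP.ind_le_one _
  have h1 := Kf_split K hΓ hone s
  have h2 := Kf_sub K hΓ hone hav
  have h3 : (fun (x : V) (_ l : List V) => W K s (lst x l) (fun l' => 1 - av Γ l'))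
      = fun (x : V) (_ l : List V) => 1 - W K s (lst x l) (fun l' => av Γ l' * 1) := by
    funext x _ l
    rw [W_sub, W_const]
    simp only [mul_one]
  rw [h3, h2]
  have h4 : km K Γ Rp s (fun _ _ _ => 1) ≤ s * Γ.length := by
    unfold km
    have h5 : ∀ t ∈ range s, kmT K Γ Rp t (fun _ _ _ => 1) ≤ Γ.length := by
      intro t _
      unfold kmT
      have h6 : ∀ i ∈ (Finset.univ : Finset (Fin Γ.length)), W K t (Γ.get i) (fun l =>
          Pool.Agent.helper20.HP.ind (∀ y ∈ l, y ∉ Γ) * 1) ≤ 1 := by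
        intro i _
        refine (W_mono K t _ fun l _ => ?_).trans (W_const K t (Γ.get i) 1).le
        rw [mul_one]; exact Pool.Agent.helper20.HP.ind_le_one _
      refine (Finset.sum_le_sum h6).trans ?_
      simp
    refine (Finset.sum_le_sum h5).trans ?_
    simp
  linarith

theorem Kf_chi_mul {J : ℕ} (hΓ : Ok Γ Rp J) (r w : ℕ) (φ : ℕ → ℝ) :
    Kf K Γ Rp (fun x ρ l => chi r w x ρ l * φ (sl x ρ l)) =
      ∑ y ∈ range w, φ (r + y + 1) * Phi K Γ Rp (r + y) := by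
  have h1 : (fun (x : V) (ρ l : List V) => chi r w x ρ l * φ (sl x ρ l))
      = fun x ρ l => ∑ y ∈ range w, φ (r + y + 1) * lev (r + y) x ρ l := by
    funext x ρ l
    rw [KfBasic_chi_eq, Finset.sum_mul]
    refine Finset.sum_congr rfl fun y _ => ?_
    unfold lev
    by_cases h : (run (x :: ρ) l).length = r + y + 1
    · rw [Pool.Agent.helper20.HP.ind_true h]
      unfold sl
      rw [h]; ring
    · rw [Pool.Agent.helper20.HP.ind_false h]; ring
  rw [h1, Kf_sum K hΓ (range w) (f := fun y x ρ l => φ (r + y + 1) * lev (r + y) x ρ l)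
    fun y _ => KfBasic_Bd_mul _ (KfBasic_Bd_lev _)]
  refine Finset.sum_congr rfl fun y _ => ?_
  rw [Kf_mul_left]
  rfl

variable {K} {θ : ℝ} {h : ℕ}

/-- the constant of the level bound times the width -/
noncomputable def CJ (J : ℕ) (θ : ℝ) : ℝ := J * CZ θ

theorem CJ_nonneg (J : ℕ) (θ : ℝ) : 0 ≤ CJ J θ := by unfold CJ CZ; positivity

theorem CZ_le_CJ {J : ℕ} (hJ : 1 ≤ J) (θ : ℝ) : CZ θ ≤ CJ J θ := by
  unfold CJ
  have h1 : (1 : ℝ) ≤ J := by exact_mod_cast hJ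
  have h2 : 0 ≤ CZ θ := by unfold CZ; positivity
  nlinarith

theorem P_nonneg {m : ℕ} {P : ℝ} (hPm : ∀ y ≤ m, Phi K Γ Rp y ≤ P) : 0 ≤ P :=
  (Phi_nonneg K Γ Rp 0).trans (hPm 0 (Nat.zero_le _))

theorem KfBasic_Kf_chi {J : ℕ} (hΓ : Ok Γ Rp J) (r w : ℕ) :
    Kf K Γ Rp (chi r w) = ∑ y ∈ range w, Phi K Γ Rp (r + y) := by
  have h1 := Kf_chi_mul K hΓ r w (fun _ => 1)
  simpa using h1

theorem Kf_chi_le {J : ℕ} (hΓ : Ok Γ Rp J) {r w m : ℕ} {P : ℝ}
    (hPm : ∀ y ≤ m, Phi K Γ Rp y ≤ P) (hm : r + w ≤ m) :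
    Kf K Γ Rp (chi r w) ≤ w * P := by
  rw [KfBasic_Kf_chi hΓ]
  have h1 : ∀ y ∈ range w, Phi K Γ Rp (r + y) ≤ P := fun y hy => by
    rw [mem_range] at hy
    exact hPm _ (by omega)
  refine (Finset.sum_le_sum h1).trans ?_
  simp

/-- short words -/
theorem km_chi_le (hP : Par K θ h) {J : ℕ} (hΓ : Ok Γ Rp J) {s : ℕ}
    (hs : 4 * s ≤ Nat.sqrt (Fintype.card V)) (r w : ℕ) :
    km K Γ Rp s (chi r w) ≤ w * s * CJ J θ := by
  have h1 : km K Γ Rp s (chi r w) = ∑ y ∈ range w, PhiN K Γ Rp s (r + y) := by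
    have h2 : (chi r w : V → List V → List V → ℝ)
        = fun x ρ l => ∑ y ∈ range w, lev (r + y) x ρ l := by
      funext x ρ l
      exact KfBasic_chi_eq r w x ρ l
    rw [h2, km_sum K (range w) Γ Rp s (fun y => lev (r + y))]
    rfl
  rw [h1]
  have h3 : ∀ y ∈ range w, PhiN K Γ Rp s (r + y) ≤ s * CJ J θ := by
    intro y _
    cases s with
    | zero => unfold PhiN km; simp
    | succ T =>
      have := short_words hP Γ Rp hΓ T (r + y) (by omega)
      unfold CJ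
      push_cast
      refine this.trans (le_of_eq ?_)
      ring
  refine (Finset.sum_le_sum h3).trans ?_
  rw [Finset.sum_const, card_range, nsmul_eq_mul]
  linarith

/-- long hits in the last `s` steps -/
theorem Kf_LH_le (hP : Par K θ h) {J : ℕ} (hΓ : Ok Γ Rp J) {s : ℕ} (hs : 4 * s ≤ Nat.sqrt (Fintype.card V))
    (r w : ℕ) : Kf K Γ Rp (fun x ρ l => Pool.Agent.helper20.HP.ind (LHin (2 * h) s x ρ l) * chi r w x ρ l)
      ≤ w * (3 / 2 * CJ J θ * ((s : ℝ) + 1)) := by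
  have h1 : (fun (x : V) (ρ l : List V) =>
      Pool.Agent.helper20.HP.ind (LHin (2 * h) s x ρ l) * chi r w x ρ l)
      = fun x ρ l => ∑ y ∈ range w,
        Pool.Agent.helper20.HP.ind (LHin (2 * h) s x ρ l) * lev (r + y) x ρ l := by
    funext x ρ l
    rw [KfBasic_chi_eq, Finset.mul_sum]
  rw [h1, Kf_sum K hΓ (range w) (f := fun y x ρ l =>
    Pool.Agent.helper20.HP.ind (LHin (2 * h) s x ρ l) * lev (r + y) x ρ l)
    fun y _ => ⟨1, fun x ρ l => by
      show |Pool.Agent.helper20.HP.ind (LHin (2 * h) s x ρ l) *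
        Pool.Agent.helper20.HP.ind ((run (x :: ρ) l).length = r + y + 1)| ≤ 1
      rw [abs_of_nonneg (mul_nonneg (Pool.Agent.helper20.HP.ind_nonneg _)
        (Pool.Agent.helper20.HP.ind_nonneg _))]
      exact mul_le_one₀ (Pool.Agent.helper20.HP.ind_le_one _) (Pool.Agent.helper20.HP.ind_nonneg _)
        (Pool.Agent.helper20.HP.ind_le_one _)⟩]
  have h2 : ∀ y ∈ range w, Kf K Γ Rp (fun x ρ l =>
      Pool.Agent.helper20.HP.ind (LHin (2 * h) s x ρ l) * lev (r + y) x ρ l)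
      ≤ 3 / 2 * CJ J θ * ((s : ℝ) + 1) := by
    intro y _
    refine Real.tsum_le_of_sum_range_le (fun t => kmT_nonneg K Γ Rp t fun x ρ l =>
      mul_nonneg (Pool.Agent.helper20.HP.ind_nonneg _) (Pool.Agent.helper20.HP.ind_nonneg _))
      fun N => ?_
    refine (LH_mass hP Γ Rp hΓ N (r + y) s hs).trans ?_
    have := CZ_le_CJ hΓ.pos θ
    have h4 : (0 : ℝ) ≤ (s : ℝ) + 1 := by positivity
    nlinarith
  refine (Finset.sum_le_sum h2).trans ?_
  rw [Finset.sum_const, card_range, nsmul_eq_mul]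

end Pool.Agent.UQ.Sk
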