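import Pool.Agent.UQ.Sk.KfCross
import Pool.Agent.UQ.KfLoc
/-!
# Q3 KfLoc : local events inside the window

`k ≤ 4 h = 2 b`, `l'` of length `k`. If `l ++ l'` is in the window and `NoLH b x ρ l l'`, then (`HP.NoLH_drop` applied twice, to the two halves of `l'`, `HP.NoLH_append`)
`sl l ≤ sl (l++l') + 2b`, and `sl (l++l') ≤ sl l + k`, so `chi r w (l++l') ≤ ind (LHin b k (l++l')) chi r w (l++l') + chi (r-2b) (w+4b) l`.
So the left side is at most `Kf (chi (r-2b) (w+4b) l * W k ψ) + Kf_LH ≤ ε₀ (w+4b) PB + w (3/2) CZ (k+1)`.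
-/

open Finset Filter
open Pool.Agent.helper20.HP hiding Phi PhiN PhiN_le_Phi PhiN_nonneg PhiN_tendsto Phi_nonneg kac km kmT kmT_abs_le kmT_add kmT_congr
  kmT_mono kmT_mul_left kmT_nonneg kmT_split kmT_sum km_add km_mono km_mono_N km_mul_left km_nonneg
  km_split km_sum phi_bound short_words summable_kmT LH_mass
open Pool.Agent.helper57.HPT

namespace Pool.Agent.UQ.Sk

variable {V : Type} [Fintype V] [DecidableEq V] {K : HW V} {θ : ℝ} {h : ℕ} {Γ : List V} {Rp : V → List V}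

theorem Kf_loc (hP : Par K θ h) {J : ℕ} (hΓ : Ok Γ Rp J) {k : ℕ} (hk : k ≤ 4 * h) {r w m : ℕ}
    {P : ℝ} (hPm : ∀ y ≤ m, Phi K Γ Rp y ≤ P) (hm : r + w + 8 * h ≤ m) (ψ : V → List V → ℝ) (h0 : ∀ v l, 0 ≤ ψ v l) (h1 : ∀ v l, ψ v l ≤ 1)
    {ε₀ : ℝ} (hε : ∀ v, W K k v (ψ v) ≤ ε₀) :
    Kf K Γ Rp (fun x ρ l => W K k (lst x l) (fun l' => av Γ l' *
      (chi r w x ρ (l ++ l') * ψ (lst x l) l')))
    ≤ ε₀ * ((w + 8 * h) * P) + w * (3 / 2 * CJ J θ * ((k : ℝ) + 1)) := by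
  have hh := hP.h_le
  have h4k : 4 * k ≤ Nat.sqrt (Fintype.card V) := by omega
  have hε0 : 0 ≤ ε₀ := by
    have hc := hP.card_pos
    obtain ⟨v⟩ := Fintype.card_pos_iff.mp hc
    exact (Pool.Agent.helper20.HP.W_nonneg K k v (fun l _ => h0 v l)).trans (hε v)
  -- abbreviations
  set F₁ : V → List V → List V → ℝ := fun x ρ l =>
    Pool.Agent.helper20.HP.ind (LHin (2 * h) k x ρ l) * chi r w x ρ l with hF₁
  have hF₁0 : ∀ x ρ l, 0 ≤ F₁ x ρ l := fun x ρ l =>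
    mul_nonneg (Pool.Agent.helper20.HP.ind_nonneg _) (KfLoc_chi_nonneg _ _ _ _ _)
  have hF₁1 : ∀ x ρ l, F₁ x ρ l ≤ 1 := fun x ρ l =>
    mul_le_one₀ (Pool.Agent.helper20.HP.ind_le_one _) (KfLoc_chi_nonneg _ _ _ _ _)
      (KfLoc_chi_le_one _ _ _ _ _)
  have hB1 : Bd (fun x ρ l => W K k (lst x l) (fun l' => av Γ l' *
      (chi r w x ρ (l ++ l') * ψ (lst x l) l'))) := by
    refine KfLoc_Bd (fun x ρ l => Pool.Agent.helper20.HP.W_nonneg K k _ fun l' _ =>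
      mul_nonneg (KfLoc_av_nonneg _ _) (mul_nonneg (KfLoc_chi_nonneg _ _ _ _ _) (h0 _ _)))
      (fun x ρ l => KfLoc_W_le_one k _ fun l' => ?_)
    exact mul_le_one₀ (KfLoc_av_le_one _ _) (mul_nonneg (KfLoc_chi_nonneg _ _ _ _ _) (h0 _ _))
      (mul_le_one₀ (KfLoc_chi_le_one _ _ _ _ _) (h0 _ _) (h1 _ _))
  have hB2 : Bd (fun x ρ l => W K k (lst x l) (fun l' => av Γ l' * F₁ x ρ (l ++ l'))) := by
    refine KfLoc_Bd (fun x ρ l => Pool.Agent.helper20.HP.W_nonneg K k _ fun l' _ =>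
      mul_nonneg (KfLoc_av_nonneg _ _) (hF₁0 _ _ _))
      (fun x ρ l => KfLoc_W_le_one k _ fun l' => ?_)
    exact mul_le_one₀ (KfLoc_av_le_one _ _) (hF₁0 _ _ _) (hF₁1 _ _ _)
  have hB3' : Bd (chi (r - 4 * h) (w + 8 * h) : V → List V → List V → ℝ) :=
    KfLoc_Bd (KfLoc_chi_nonneg _ _) (KfLoc_chi_le_one _ _)
  have hB3 : Bd (fun x ρ l => ε₀ * chi (r - 4 * h) (w + 8 * h) (V := V) x ρ l) := by
    refine ⟨ε₀, fun x ρ l => ?_⟩
    rw [abs_of_nonneg (mul_nonneg hε0 (KfLoc_chi_nonneg _ _ _ _ _))]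
    exact mul_le_of_le_one_right hε0 (KfLoc_chi_le_one _ _ _ _ _)
  have hB4 : Bd (fun x ρ l => W K k (lst x l) (fun l' => av Γ l' * F₁ x ρ (l ++ l')) +
      ε₀ * chi (r - 4 * h) (w + 8 * h) x ρ l) := by
    obtain ⟨C₁, hC₁⟩ := hB2
    obtain ⟨C₂, hC₂⟩ := hB3
    exact ⟨C₁ + C₂, fun x ρ l => (abs_add_le _ _).trans (add_le_add (hC₁ x ρ l) (hC₂ x ρ l))⟩
  have hmain : Kf K Γ Rp (fun x ρ l => W K k (lst x l) (fun l' => av Γ l' *
      (chi r w x ρ (l ++ l') * ψ (lst x l) l'))) ≤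
      Kf K Γ Rp (fun x ρ l => W K k (lst x l) (fun l' => av Γ l' * F₁ x ρ (l ++ l')) +
        ε₀ * chi (r - 4 * h) (w + 8 * h) x ρ l) := by
    refine Kf_mono K hΓ hB1 hB4 fun x ρ l hnd _ _ _ => ?_
    have hpt : W K k (lst x l) (fun l' => av Γ l' *
        (chi r w x ρ (l ++ l') * ψ (lst x l) l')) ≤
        W K k (lst x l) (fun l' => av Γ l' * F₁ x ρ (l ++ l') +
          chi (r - 4 * h) (w + 8 * h) x ρ l * ψ (lst x l) l') := by
      refine Pool.Agent.helper20.HP.W_mono K k _ fun l' hl' => ?_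
      have hg := KfLoc_geom hk r w x ρ l l' hnd hl'
      have a0 := KfLoc_av_nonneg Γ l'
      have a1 := KfLoc_av_le_one Γ l'
      have p0 := h0 (lst x l) l'
      have p1 := h1 (lst x l) l'
      have f0 := hF₁0 x ρ (l ++ l')
      have c0 := KfLoc_chi_nonneg (r - 4 * h) (w + 8 * h) x ρ l
      calc av Γ l' * (chi r w x ρ (l ++ l') * ψ (lst x l) l')
          ≤ av Γ l' * ((F₁ x ρ (l ++ l') + chi (r - 4 * h) (w + 8 * h) x ρ l) * ψ (lst x l) l') :=
            mul_le_mul_of_nonneg_left (mul_le_mul_of_nonneg_right hg p0) a0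
        _ = av Γ l' * F₁ x ρ (l ++ l') * ψ (lst x l) l' +
            av Γ l' * (chi (r - 4 * h) (w + 8 * h) x ρ l * ψ (lst x l) l') := by ring
        _ ≤ _ := by
            refine add_le_add (mul_le_of_le_one_right (mul_nonneg a0 f0) p1)
              (mul_le_of_le_one_left (mul_nonneg c0 p0) a1)
    refine hpt.trans ?_
    rw [Pool.Agent.helper20.HP.W_add, Pool.Agent.helper20.HP.W_mul_left]
    refine add_le_add le_rfl ?_
    rw [mul_comm]
    exact mul_le_mul_of_nonneg_right (hε _) (KfLoc_chi_nonneg _ _ _ _ _)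
  refine hmain.trans ?_
  rw [Kf_add K hΓ hB2 hB3, Kf_mul_left]
  have e1 : Kf K Γ Rp (fun x ρ l => W K k (lst x l) (fun l' => av Γ l' * F₁ x ρ (l ++ l'))) ≤
      w * (3 / 2 * CJ J θ * ((k : ℝ) + 1)) :=
    (Kf_split_le K hΓ (KfLoc_Bd hF₁0 hF₁1) hF₁0 k).trans (Kf_LH_le hP hΓ h4k r w)
  have e2 : Kf K Γ Rp (chi (r - 4 * h) (w + 8 * h)) ≤
      ((w + 8 * h : ℕ) : ℝ) * P :=
    Kf_chi_le hΓ hPm (by omega)
  push_cast at e2
  have e3 := mul_le_mul_of_nonneg_left e2 hε0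
  have e4 : Kf K Γ Rp (fun x ρ l => chi (r - 4 * h) (w + 8 * h) x ρ l) =
      Kf K Γ Rp (chi (r - 4 * h) (w + 8 * h)) := rfl
  rw [e4]
  linarith

/-- same for a function of the last `k` steps of the word, including the short words -/
theorem Kf_loc' (hP : Par K θ h) {J : ℕ} (hΓ : Ok Γ Rp J) {k : ℕ} (hk : k ≤ 4 * h) {r w m : ℕ}
    {P : ℝ} (hPm : ∀ y ≤ m, Phi K Γ Rp y ≤ P) (hm : r + w + 8 * h ≤ m) (f : V → List V → List V → ℝ) (hf0 : ∀ x ρ l, 0 ≤ f x ρ l)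
    (hf1 : ∀ x ρ l, f x ρ l ≤ 1) (ψ : V → List V → ℝ) (h0 : ∀ v l, 0 ≤ ψ v l) (h1 : ∀ v l, ψ v l ≤ 1)
    (hfψ : ∀ x ρ l l', (x :: ρ).Nodup → (∀ u ∈ x :: ρ, u ∈ Γ) → (∀ u ∈ l ++ l', u ∉ Γ) →
      Wk K x (l ++ l') → l'.length = k → f x ρ (l ++ l') ≤ ψ (lst x l) l')
    {ε₀ : ℝ} (hε : ∀ v, W K k v (ψ v) ≤ ε₀) :
    Kf K Γ Rp (fun x ρ l => chi r w x ρ l * f x ρ l)
    ≤ ε₀ * ((w + 8 * h) * P) + 3 * (w * CJ J θ * ((k : ℝ) + 1)) := by
  have hh := hP.h_le
  have h4k : 4 * k ≤ Nat.sqrt (Fintype.card V) := by omega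
  have hg0 : ∀ x ρ l, 0 ≤ chi r w x ρ l * f x ρ l := fun x ρ l =>
    mul_nonneg (KfLoc_chi_nonneg _ _ _ _ _) (hf0 x ρ l)
  have hg1 : ∀ x ρ l, chi r w x ρ l * f x ρ l ≤ 1 := fun x ρ l =>
    mul_le_one₀ (KfLoc_chi_le_one _ _ _ _ _) (hf0 x ρ l) (hf1 x ρ l)
  rw [Kf_split K hΓ (KfLoc_Bd hg0 hg1) k]
  have e1 : km K Γ Rp k (fun x ρ l => chi r w x ρ l * f x ρ l) ≤ w * k * CJ J θ := by
    refine le_trans (km_mono K Γ Rp k fun i l _ _ => ?_) (km_chi_le hP hΓ h4k r w)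
    exact mul_le_of_le_one_right (KfLoc_chi_nonneg _ _ _ _ _) (hf1 _ _ _)
  have e2 : Kf K Γ Rp (fun x ρ l => W K k (lst x l) (fun l' => av Γ l' *
      (chi r w x ρ (l ++ l') * f x ρ (l ++ l')))) ≤
      Kf K Γ Rp (fun x ρ l => W K k (lst x l) (fun l' => av Γ l' *
      (chi r w x ρ (l ++ l') * ψ (lst x l) l'))) := by
    refine Kf_mono K hΓ ?_ ?_ fun x ρ l hnd hin hout hw => ?_
    · refine KfLoc_Bd (fun x ρ l => Pool.Agent.helper20.HP.W_nonneg K k _ fun l' _ =>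
        mul_nonneg (KfLoc_av_nonneg _ _) (hg0 _ _ _))
        (fun x ρ l => KfLoc_W_le_one k _ fun l' => ?_)
      exact mul_le_one₀ (KfLoc_av_le_one _ _) (hg0 _ _ _) (hg1 _ _ _)
    · refine KfLoc_Bd (fun x ρ l => Pool.Agent.helper20.HP.W_nonneg K k _ fun l' _ =>
        mul_nonneg (KfLoc_av_nonneg _ _) (mul_nonneg (KfLoc_chi_nonneg _ _ _ _ _) (h0 _ _)))
        (fun x ρ l => KfLoc_W_le_one k _ fun l' => ?_)
      exact mul_le_one₀ (KfLoc_av_le_one _ _) (mul_nonneg (KfLoc_chi_nonneg _ _ _ _ _) (h0 _ _))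
        (mul_le_one₀ (KfLoc_chi_le_one _ _ _ _ _) (h0 _ _) (h1 _ _))
    · refine W_mono_supp K fun l' hl' hw' => ?_
      by_cases hav : ∀ y ∈ l', y ∉ Γ
      · refine mul_le_mul_of_nonneg_left ?_ (KfLoc_av_nonneg _ _)
        refine mul_le_mul_of_nonneg_left ?_ (KfLoc_chi_nonneg _ _ _ _ _)
        refine hfψ x ρ l l' hnd hin ?_ ?_ hl'
        · intro u hu
          rcases List.mem_append.mp hu with hu | hu
          · exact hout u hu
          · exact hav u hu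
        · -- concatenation of possible walks
          unfold Wk at hw hw' ⊢
          rw [← List.cons_append, List.isChain_append]
          refine ⟨hw, ?_, ?_⟩
          · exact hw'.tail
          · intro a ha b hb
            have hne : (x :: l) ≠ [] := by simp
            have ha' : lst x l = a := by
              unfold lst
              cases l with
              | nil => simpa using ha
              | cons y l =>
                rw [List.getLast?_cons_cons] at ha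
                rw [List.getLastD_eq_getLast?]
                rw [Option.mem_def] at ha
                rw [ha]; rfl
            cases l' with
            | nil => simp at hb
            | cons y l' =>
              simp only [List.head?_cons, Option.mem_def, Option.some.injEq] at hb
              subst hb
              rw [List.isChain_cons_cons] at hw'
              rw [← ha']
              exact hw'.1
      · have : av Γ l' = 0 := Pool.Agent.helper20.HP.ind_false hav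
        rw [this, zero_mul, zero_mul]
  have e3 := Kf_loc hP hΓ hk hPm hm ψ h0 h1 hε
  have hCZ : 0 ≤ CJ J θ := CJ_nonneg J θ
  have hwC : 0 ≤ (w : ℝ) * CJ J θ := by positivity
  have hk0 : (0 : ℝ) ≤ k := Nat.cast_nonneg k
  nlinarith [mul_nonneg hwC hk0]

end Pool.Agent.UQ.Sk
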